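import Pool.Agent.Helper56.SS.Fil

/-! Project SN, part (3'): basic lemmas on the tilt. -/

set_option linter.unusedSectionVars false

namespace Pool.Agent.Helper56.SS

open Finset

variable {Ω : Type} [Fintype Ω]

namespace Hyp

variable {d : Dat Ω} (h : Hyp d)
include h

theorem lam_pos : 0 < d.lam := lt_of_lt_of_le one_pos h.lam_ge

theorem th_nonneg (j : ℕ) (w : Ω) : 0 ≤ d.th j w := by
  rcases h.th01 j w with e | e <;> rw [e] <;> norm_num

theorem th_le_one (j : ℕ) (w : Ω) : d.th j w ≤ 1 := by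
  rcases h.th01 j w with e | e <;> rw [e] <;> norm_num

theorem th_sq (j : ℕ) (w : Ω) : d.th j w ^ 2 = d.th j w := by
  rcases h.th01 j w with e | e <;> rw [e] <;> norm_num

theorem sg_meas (j : ℕ) : d.F.Meas j (d.sg j) := d.F.C_meas j _

theorem sg_nonneg (j : ℕ) (w : Ω) : 0 ≤ d.sg j w :=
  d.F.C_nonneg (fun _ => by positivity) w

/-- where `th j = 1` the conditional variance is at most `kap ^ 2` -/
theorem sg_le (j : ℕ) (w : Ω) (hw : d.th j w = 1) : d.sg j w ≤ d.kap ^ 2 := by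
  have h1 : d.F.C j (fun v => d.D j v ^ 2) w ≤ d.F.C j (fun _ => d.kap ^ 2) w := by
    apply d.F.C_mono_blk
    intro w' hw'
    have h2 : d.th j w' = 1 := by rw [h.th_meas j w' w hw', hw]
    have h3 := h.th_le j w' h2
    have := abs_nonneg (d.D j w')
    rw [← sq_abs]
    gcongr
  rw [d.F.C_const] at h1
  exact h1

theorem th_sg_le (j : ℕ) (w : Ω) : d.th j w * d.sg j w ≤ d.kap ^ 2 := by
  rcases h.th01 j w with e | e
  · rw [e, zero_mul]; positivity
  · rw [e, one_mul]; exact h.sg_le j w e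

theorem abs_x_le (j : ℕ) (w : Ω) : |d.x j w| ≤ d.lam * d.kap := by
  have hl := h.lam_pos
  have hk := h.kap_pos
  unfold Dat.x
  split_ifs
  · rcases h.th01 j w with e | e
    · rw [e]; simp; positivity
    · rw [e, mul_one, abs_mul, abs_of_pos hl]
      exact mul_le_mul_of_nonneg_left (h.th_le j w e) hl.le
  · simp; positivity

theorem abs_x_le' (j : ℕ) (w : Ω) : |d.x j w| ≤ 1 / 4 := (h.abs_x_le j w).trans h.lk

theorem x_meas (j : ℕ) : d.F.Meas (j + 1) (d.x j) := by
  intro w w' hw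
  have h1 := h.D_meas j w w' hw
  have h2 := h.th_meas j w w' (d.F.ref j w w' hw)
  unfold Dat.x
  rw [h1, h2]

theorem C_x (j : ℕ) (w : Ω) : d.F.C j (d.x j) w = 0 := by
  classical
  by_cases hj : j ∈ d.G
  · have e : d.x j = fun w => (d.lam * d.th j w) * d.D j w := by
      funext w; unfold Dat.x; rw [if_pos hj]
    rw [e, d.F.C_mul_meas ((d.F.meas_const j d.lam).mul (h.th_meas j)), h.D_zero, mul_zero]
  · have e : d.x j = fun _ => (0 : ℝ) := by
      funext w; unfold Dat.x; rw [if_neg hj]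
    rw [e, d.F.C_const]

theorem C_x_sq (j : ℕ) (w : Ω) (hj : j ∈ d.G) :
    d.F.C j (fun v => d.x j v ^ 2) w = d.lam ^ 2 * (d.th j w * d.sg j w) := by
  classical
  have e : (fun v => d.x j v ^ 2) = fun v => (d.lam ^ 2 * d.th j v) * d.D j v ^ 2 := by
    funext v
    unfold Dat.x
    rw [if_pos hj]
    have := h.th_sq j v
    calc (d.lam * d.th j v * d.D j v) ^ 2 = d.lam ^ 2 * d.th j v ^ 2 * d.D j v ^ 2 := by ring
      _ = _ := by rw [this]
  rw [e, d.F.C_mul_meas ((d.F.meas_const j (d.lam ^ 2)).mul (h.th_meas j))]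
  unfold Dat.sg
  ring

theorem xb_meas (t : ℝ) (j : ℕ) : d.F.Meas (j + 1) (d.xb t j) := by
  intro w w' hw
  have h1 := h.x_meas j w w' hw
  have h2 := h.sg_meas j w w' (d.F.ref j w w' hw)
  unfold Dat.xb
  rw [h1, h2]

theorem xs_meas (t : ℝ) (j : ℕ) : d.F.Meas (j + 1) (d.xs t j) := by
  intro w w' hw
  have h1 := h.x_meas j w w' hw
  have h2 := h.sg_meas j w w' (d.F.ref j w w' hw)
  unfold Dat.xs
  rw [h1, h2]

theorem abs_xb_le (t : ℝ) (j : ℕ) (w : Ω) : |d.xb t j w| ≤ 1 / 4 := by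
  unfold Dat.xb
  split_ifs
  · exact h.abs_x_le' j w
  · norm_num

theorem abs_xs_le (t : ℝ) (j : ℕ) (w : Ω) : |d.xs t j w| ≤ d.lam * d.kap := by
  have hl := h.lam_pos
  have hk := h.kap_pos
  unfold Dat.xs
  split_ifs
  · simp; positivity
  · exact h.abs_x_le j w

theorem C_xb (t : ℝ) (j : ℕ) (w : Ω) : d.F.C j (d.xb t j) w = 0 := by
  classical
  have e : d.xb t j = fun w => (if t ^ 2 < d.sg j w then (1 : ℝ) else 0) * d.x j w := by
    funext w; unfold Dat.xb; split_ifs <;> simp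
  rw [e, d.F.C_mul_meas ((h.sg_meas j).comp (fun s => if t ^ 2 < s then (1 : ℝ) else 0)), h.C_x,
    mul_zero]

theorem C_xs (t : ℝ) (j : ℕ) (w : Ω) : d.F.C j (d.xs t j) w = 0 := by
  classical
  have e : d.xs t j = fun w => (if t ^ 2 < d.sg j w then (0 : ℝ) else 1) * d.x j w := by
    funext w; unfold Dat.xs; split_ifs <;> simp
  rw [e, d.F.C_mul_meas ((h.sg_meas j).comp (fun s => if t ^ 2 < s then (0 : ℝ) else 1)), h.C_x,
    mul_zero]

/-- conditional second moment of the small part -/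
theorem C_xs_sq (t : ℝ) (j : ℕ) (w : Ω) (hj : j ∈ d.G) :
    d.F.C j (fun v => d.xs t j v ^ 2) w ≤ d.lam ^ 2 * t ^ 2 := by
  classical
  have e : (fun v => d.xs t j v ^ 2)
      = fun w => (if t ^ 2 < d.sg j w then (0 : ℝ) else 1) * d.x j w ^ 2 := by
    funext w; unfold Dat.xs; split_ifs <;> simp
  rw [e, d.F.C_mul_meas ((h.sg_meas j).comp (fun s => if t ^ 2 < s then (0 : ℝ) else 1)),
    h.C_x_sq j w hj]
  split_ifs with hs
  · rw [zero_mul]; positivity
  · rw [one_mul]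
    apply mul_le_mul_of_nonneg_left _ (by positivity)
    have h1 := h.th_le_one j w
    have h2 := h.sg_nonneg j w
    have h3 := h.th_nonneg j w
    calc d.th j w * d.sg j w ≤ 1 * d.sg j w := by gcongr
      _ ≤ t ^ 2 := by rw [one_mul]; exact not_lt.mp hs

theorem xs_zero_of_notMem (t : ℝ) (j : ℕ) (w : Ω) (hj : j ∉ d.G) : d.xs t j w = 0 := by
  unfold Dat.xs Dat.x; simp [hj]

theorem xb_zero_of_notMem (t : ℝ) (j : ℕ) (w : Ω) (hj : j ∉ d.G) : d.xb t j w = 0 := by
  unfold Dat.xb Dat.x; simp [hj]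

/-- at threshold `kap` there is no big part -/
theorem xb_kap (j : ℕ) (w : Ω) : d.xb d.kap j w = 0 := by
  classical
  unfold Dat.xb
  split_ifs with hs
  · unfold Dat.x
    split_ifs
    · rcases h.th01 j w with e | e
      · rw [e]; ring
      · exact absurd (h.sg_le j w e) (not_le.mpr hs)
    · rfl
  · rfl

theorem one_add_x (t : ℝ) (j : ℕ) (w : Ω) : 1 + d.x j w = (1 + d.xb t j w) * (1 + d.xs t j w) := by
  unfold Dat.xb Dat.xs
  split_ifs <;> ring

theorem one_add_x_pos (j : ℕ) (w : Ω) : 3 / 4 ≤ 1 + d.x j w := by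
  have := neg_abs_le (d.x j w); have := h.abs_x_le' j w; linarith

theorem one_add_xb_pos (t : ℝ) (j : ℕ) (w : Ω) : 3 / 4 ≤ 1 + d.xb t j w := by
  have := neg_abs_le (d.xb t j w); have := h.abs_xb_le t j w; linarith

theorem one_add_xs_pos (t : ℝ) (j : ℕ) (w : Ω) : 3 / 4 ≤ 1 + d.xs t j w := by
  have := neg_abs_le (d.xs t j w); have := (h.abs_xs_le t j w).trans h.lk; linarith

theorem R_pos (n : ℕ) (w : Ω) : 0 < d.R n w :=
  prod_pos (fun i _ => by have := h.one_add_x_pos i w; linarith)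

theorem Bb_pos (t : ℝ) (a n : ℕ) (w : Ω) : 0 < d.Bb t a n w :=
  prod_pos (fun i _ => by have := h.one_add_xb_pos t i w; linarith)

theorem Ss_pos (t : ℝ) (a n : ℕ) (w : Ω) : 0 < d.Ss t a n w :=
  prod_pos (fun i _ => by have := h.one_add_xs_pos t i w; linarith)

theorem R_succ (n : ℕ) (w : Ω) : d.R (n + 1) w = d.R n w * (1 + d.x n w) := by
  unfold Dat.R; rw [prod_range_succ]

theorem R_zero (w : Ω) : d.R 0 w = 1 := by unfold Dat.R; simp

theorem Bb_succ (t : ℝ) {a n : ℕ} (han : a ≤ n) (w : Ω) :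
    d.Bb t a (n + 1) w = d.Bb t a n w * (1 + d.xb t n w) := by
  unfold Dat.Bb; rw [prod_Ico_succ_top han]

theorem Ss_succ (t : ℝ) {a n : ℕ} (han : a ≤ n) (w : Ω) :
    d.Ss t a (n + 1) w = d.Ss t a n w * (1 + d.xs t n w) := by
  unfold Dat.Ss; rw [prod_Ico_succ_top han]

theorem Bb_self (t : ℝ) (a : ℕ) (w : Ω) : d.Bb t a a w = 1 := by unfold Dat.Bb; simp

theorem Ss_self (t : ℝ) (a : ℕ) (w : Ω) : d.Ss t a a w = 1 := by unfold Dat.Ss; simp

theorem R_meas (n : ℕ) : d.F.Meas n (d.R n) := by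
  unfold Dat.R
  apply Fil.Meas.prod
  intro i hi
  have hi' : i + 1 ≤ n := mem_range.mp hi
  exact ((d.F.meas_const (i + 1) 1).add (h.x_meas i)).mono hi'

theorem Bb_meas (t : ℝ) (a n : ℕ) : d.F.Meas n (d.Bb t a n) := by
  unfold Dat.Bb
  apply Fil.Meas.prod
  intro i hi
  have hi' : i + 1 ≤ n := (mem_Ico.mp hi).2
  exact ((d.F.meas_const (i + 1) 1).add (h.xb_meas t i)).mono hi'

theorem Ss_meas (t : ℝ) (a n : ℕ) : d.F.Meas n (d.Ss t a n) := by
  unfold Dat.Ss
  apply Fil.Meas.prod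
  intro i hi
  have hi' : i + 1 ≤ n := (mem_Ico.mp hi).2
  exact ((d.F.meas_const (i + 1) 1).add (h.xs_meas t i)).mono hi'

theorem R_split (t : ℝ) {a n : ℕ} (han : a ≤ n) (w : Ω) :
    d.R n w = d.R a w * d.Bb t a n w * d.Ss t a n w := by
  unfold Dat.R Dat.Bb Dat.Ss
  rw [mul_assoc, ← prod_mul_distrib, ← prod_range_mul_prod_Ico _ han]
  congr 1
  exact prod_congr rfl (fun i _ => h.one_add_x t i w)

theorem E_R [Nonempty Ω] (n : ℕ) : E (d.R n) = 1 := by
  induction n with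
  | zero =>
    have : d.R 0 = fun _ => (1 : ℝ) := by funext w; exact h.R_zero w
    rw [this, E_const]
  | succ n ih =>
    have e : d.R (n + 1) = fun w => d.R n w + d.R n w * d.x n w := by
      funext w; rw [h.R_succ]; ring
    rw [e, E_add, ih, ← d.F.E_mul_C (h.R_meas n)]
    have : (fun w => d.R n w * d.F.C n (d.x n) w) = fun _ => (0 : ℝ) := by
      funext w; rw [h.C_x]; ring
    rw [this, E_zero, add_zero]

theorem E_RB [Nonempty Ω] (t : ℝ) {a n : ℕ} (han : a ≤ n) :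
    E (fun w => d.R a w * d.Bb t a n w) = 1 := by
  induction n, han using Nat.le_induction with
  | base =>
    have : (fun w => d.R a w * d.Bb t a a w) = d.R a := by funext w; rw [h.Bb_self]; ring
    rw [this, h.E_R]
  | succ n han ih =>
    have e : (fun w => d.R a w * d.Bb t a (n + 1) w)
        = fun w => d.R a w * d.Bb t a n w + (d.R a w * d.Bb t a n w) * d.xb t n w := by
      funext w; rw [h.Bb_succ t han]; ring
    rw [e, E_add, ih, ← d.F.E_mul_C (((h.R_meas a).mono han).mul (h.Bb_meas t a n))]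
    have : (fun w => (d.R a w * d.Bb t a n w) * d.F.C n (d.xb t n) w) = fun _ => (0 : ℝ) := by
      funext w; rw [h.C_xb]; ring
    rw [this, E_zero, add_zero]

/-- `E (R_j th_j D_j^2) = E (R_j th_j sg_j)` -/
theorem gn_eq (j : ℕ) : d.gn j = E (fun w => d.R j w * (d.th j w * d.sg j w)) := by
  unfold Dat.gn
  have e1 : (fun w => d.R j w * (d.th j w * d.D j w ^ 2))
      = fun w => (d.R j w * d.th j w) * d.D j w ^ 2 := by funext w; ring
  have e2 : (fun w => d.R j w * (d.th j w * d.sg j w))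
      = fun w => (d.R j w * d.th j w) * d.F.C j (fun v => d.D j v ^ 2) w := by
    funext w; unfold Dat.sg; ring
  rw [e1, e2, d.F.E_mul_C ((h.R_meas j).mul (h.th_meas j))]

theorem gn_nonneg (j : ℕ) : 0 ≤ d.gn j := by
  unfold Dat.gn
  apply E_nonneg
  intro w
  have := h.R_pos j w
  have := h.th_nonneg j w
  positivity

theorem Pv_nonneg (l c : ℕ) : 0 ≤ d.Pv l c := by
  unfold Dat.Pv
  apply E_nonneg
  intro w
  exact mul_nonneg (h.R_pos c w).le (d.F.C_nonneg (fun _ => by positivity) w)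

end Hyp

end Pool.Agent.Helper56.SS
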