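import Pool.Agent.Helper56.SS.St

set_option linter.unusedSectionVars false

namespace Pool.Agent.Helper56.SS

open Finset

/-- `C|g| ^ 2 ≤ C (g^2)` -/
theorem cs_BIG {Ω : Type} [Fintype Ω] (F : Fil Ω) (j : ℕ) (g : Ω → ℝ) (w : Ω) :
    F.C j (fun v => |g v|) w ^ 2 ≤ F.C j (fun v => g v ^ 2) w := by
  set m := F.C j (fun v => |g v|) w with hm
  have h0 : 0 ≤ F.C j (fun v => (|g v| - m) ^ 2) w := F.C_nonneg (fun _ => by positivity) w
  have e : (fun v => (|g v| - m) ^ 2) = fun v => (g v ^ 2 - (2 * m) * |g v|) + m ^ 2 := by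
    funext v
    have := sq_abs (g v)
    calc (|g v| - m) ^ 2 = (|g v| ^ 2 - (2 * m) * |g v|) + m ^ 2 := by ring
      _ = _ := by rw [this]
  rw [e, F.C_add, F.C_sub, F.C_mul_left, F.C_const, ← hm] at h0
  nlinarith

theorem m_big : S_BIG := by
  classical
  intro _ hnear Ω _ _ d h t s ε om ht hs hlk hε hε2 a j haj hjG hom
  have hnear' := fun (φ : Ω → ℝ) (Φ : ℝ) => hnear ‹S_NEG› Ω d h t s ε om ht.le hs hlk hε
    (by linarith) a j haj hom φ Φ
  have hl := h.lam_pos
  -- the function phi
  set φ : Ω → ℝ := fun w => if t ^ 2 < d.sg j w then d.th j w * d.sg j w else 0 with hφ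
  have hφ0 : ∀ w, 0 ≤ φ w := by
    intro w
    rw [hφ]
    show 0 ≤ if t ^ 2 < d.sg j w then d.th j w * d.sg j w else 0
    split_ifs
    · exact mul_nonneg (h.th_nonneg j w) (h.sg_nonneg j w)
    · exact le_refl _
  have hφ1 : ∀ w, φ w ≤ d.kap ^ 2 := by
    intro w
    show (if t ^ 2 < d.sg j w then d.th j w * d.sg j w else 0) ≤ d.kap ^ 2
    split_ifs
    · exact h.th_sg_le j w
    · positivity
  have hφ2 : ∀ w, φ w ≤ d.th j w * d.sg j w := by
    intro w
    show (if t ^ 2 < d.sg j w then d.th j w * d.sg j w else 0) ≤ _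
    split_ifs
    · exact le_refl _
    · exact mul_nonneg (h.th_nonneg j w) (h.sg_nonneg j w)
  have hN := hnear' φ (d.kap ^ 2) hφ0 hφ1
  have hgn : E (fun w => d.R j w * φ w) ≤ d.gn j := by
    rw [h.gn_eq]
    exact E_mono (fun w => mul_le_mul_of_nonneg_left (hφ2 w) (h.R_pos j w).le)
  set X := E (fun w => d.R a w * d.Bb t a j w * φ w) with hX
  have hgn0 := h.gn_nonneg j
  have hX1 : X ≤ 2 * d.gn j + d.kap ^ 2 * om := by
    by_contra hc
    push Not at hc
    have h1 : 2 * d.gn j < X - d.kap ^ 2 * om := by linarith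
    have h2 : (1 / 2) * (X - d.kap ^ 2 * om) ≤ (1 - ε) * (X - d.kap ^ 2 * om) := by
      apply mul_le_mul_of_nonneg_right
      · linarith
      · linarith
    linarith
  -- conditional expectation of |xb|
  have hC : ∀ w, d.F.C j (fun v => |d.xb t j v|) w ≤ d.lam / t * φ w := by
    intro w
    have e : (fun v => |d.xb t j v|)
        = fun v => (d.lam * d.th j v * (if t ^ 2 < d.sg j v then (1 : ℝ) else 0)) * |d.D j v| := by
      funext v
      unfold Dat.xb
      split_ifs
      · unfold Dat.x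
        rw [if_pos hjG, abs_mul, abs_mul, abs_of_pos hl, abs_of_nonneg (h.th_nonneg j v)]
        ring
      · simp
    rw [e, d.F.C_mul_meas (((d.F.meas_const j d.lam).mul (h.th_meas j)).mul
      ((h.sg_meas j).comp (fun s => if t ^ 2 < s then (1 : ℝ) else 0)))]
    show _ ≤ d.lam / t * (if t ^ 2 < d.sg j w then d.th j w * d.sg j w else 0)
    split_ifs with hsg
    · have hcs := cs_BIG d.F j (d.D j) w
      have hm0 : 0 ≤ d.F.C j (fun v => |d.D j v|) w := d.F.C_nonneg (fun _ => abs_nonneg _) w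
      change d.F.C j (fun v => |d.D j v|) w ^ 2 ≤ d.sg j w at hcs
      set m := d.F.C j (fun v => |d.D j v|) w with hm
      have h1 : t * m ≤ d.sg j w := by
        nlinarith [sq_nonneg (t - m)]
      have h2 : m ≤ d.sg j w / t := by
        rw [le_div_iff₀ ht]; linarith
      have h3 := h.th_nonneg j w
      calc d.lam * d.th j w * 1 * m ≤ d.lam * d.th j w * 1 * (d.sg j w / t) := by
            apply mul_le_mul_of_nonneg_left h2
            positivity
        _ = d.lam / t * (d.th j w * d.sg j w) := by ring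
    · simp
  have hmeas : d.F.Meas j (fun w => d.R a w * d.Bb t a j w) :=
    ((h.R_meas a).mono haj).mul (h.Bb_meas t a j)
  calc E (fun w => d.R a w * d.Bb t a j w * |d.xb t j w|)
      = E (fun w => (d.R a w * d.Bb t a j w) * d.F.C j (fun v => |d.xb t j v|) w) :=
        (d.F.E_mul_C hmeas (fun v => |d.xb t j v|)).symm
    _ ≤ E (fun w => d.lam / t * (d.R a w * d.Bb t a j w * φ w)) := by
        apply E_mono
        intro w
        have h1 := mul_le_mul_of_nonneg_left (hC w)
          (mul_nonneg (h.R_pos a w).le (h.Bb_pos t a j w).le)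
        calc _ ≤ d.R a w * d.Bb t a j w * (d.lam / t * φ w) := h1
          _ = _ := by ring
    _ = d.lam / t * X := by rw [E_mul_left]
    _ ≤ d.lam / t * (2 * d.gn j + d.kap ^ 2 * om) :=
        mul_le_mul_of_nonneg_left hX1 (by positivity)

end Pool.Agent.Helper56.SS
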