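import Pool.Agent.Helper56.SS.St

/-! Project SN (MP_9a0a6c_an): module CHAIN (helper49 for helper56). -/

namespace Pool.Agent.Helper56.SS

open Finset

variable {Ω : Type} [Fintype Ω]

private theorem Pv_zero_CHAIN {d : Dat Ω} (h : Hyp d) (l : ℕ) :
    d.Pv l 0 = E (fun w => d.D l w ^ 2) := by
  unfold Dat.Pv
  have e : (fun w => d.R 0 w * d.F.C 0 (fun v => d.D l v ^ 2) w)
      = d.F.C 0 (fun v => d.D l v ^ 2) := by
    funext w; rw [h.R_zero, one_mul]
  rw [e, d.F.E_C]

/-- the scalar induction along the scales -/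
private theorem scal_CHAIN {K : ℕ} {P err : ℕ → ℝ} {ε b : ℝ} (hε : 0 < ε) (hε1 : ε ≤ 1 / 2)
    (hb : 0 ≤ b) (herr : ∀ k, 0 ≤ err k)
    (h0 : (1 - ε) * (P 1 - b) ≤ P 0)
    (hs : ∀ k, 1 ≤ k → k < K → (1 - ε) * (P (k + 1) - err k - b) ≤ P k) :
    ∀ m, 1 ≤ m → m ≤ K → (1 - ε) ^ m * P m - ∑ k ∈ Ico 1 m, err k - m * b ≤ P 0 := by
  intro m hm
  induction m, hm using Nat.le_induction with
  | base =>
    intro _
    have h1 : 0 ≤ ε * b := by positivity
    simp only [Ico_self, sum_empty, pow_one, Nat.cast_one]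
    nlinarith
  | succ m hm ih =>
    intro hmK
    have ih' := ih (by omega)
    have hs' := hs m hm (by omega)
    rw [sum_Ico_succ_top hm]
    push_cast
    have hp0 : 0 ≤ (1 - ε) ^ m := pow_nonneg (by linarith) m
    have hp1 : (1 - ε) ^ m ≤ 1 := pow_le_one₀ (by linarith) (by linarith)
    have he := herr m
    have h2 : (1 - ε) * P (m + 1) - (err m + b) ≤ P m := by
      have : 0 ≤ ε * (err m + b) := by positivity
      nlinarith
    have h3 : (1 - ε) ^ m * ((1 - ε) * P (m + 1) - (err m + b)) ≤ (1 - ε) ^ m * P m :=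
      mul_le_mul_of_nonneg_left h2 hp0
    have h4 : (1 - ε) ^ m * (err m + b) ≤ 1 * (err m + b) :=
      mul_le_mul_of_nonneg_right hp1 (by linarith)
    have h5 : (1 - ε) ^ (m + 1) * P (m + 1) = (1 - ε) ^ m * ((1 - ε) * P (m + 1)) := by ring
    rw [h5]
    have h6 : (1 - ε) ^ m * ((1 - ε) * P (m + 1) - (err m + b))
      = (1 - ε) ^ m * ((1 - ε) * P (m + 1)) - (1 - ε) ^ m * (err m + b) := by ring
    linarith

theorem m_chain : S_CHAIN := by
  intro hSTEP hSTEP0 hNEG hNEAR hTEL hBIG Ω _ _ d h K c t dd e tau M hC s ε om hs hsk hε hKε hexp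
    l hl
  have hK := hC.Kpos
  have hK' : (1 : ℝ) ≤ K := by exact_mod_cast hK
  have hε2 : ε ≤ 1 / 2 := by nlinarith
  have hom : 0 ≤ om := (Real.exp_pos _).le.trans (hexp 0 (by omega))
  have hlam := h.lam_pos
  set b : ℝ := d.B0 ^ 2 * om with hb
  have hb0 : 0 ≤ b := by positivity
  -- the errors
  set err : ℕ → ℝ := fun k => if 1 ≤ k ∧ k < K then
    ∑ j ∈ d.G.filter (fun j => c (k + 1) l ≤ j ∧ j < c k l),
        (e l j + tau) * (d.lam / t k * (2 * d.gn j + d.kap ^ 2 * om)) else 0 with herrdef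
  have herr : ∀ k, 0 ≤ err k := by
    intro k
    rw [herrdef]
    dsimp only
    split_ifs with hk
    · apply sum_nonneg
      intro j _
      have h1 := hC.e_nonneg l j
      have h2 := hC.tau_nonneg
      have h3 := hC.tpos k hk.2
      have h4 := h.gn_nonneg j
      positivity
    · exact le_rfl
  have h0 : (1 - ε) * (d.Pv l (c 1 l) - b) ≤ d.Pv l (c 0 l) := by
    have := hSTEP0 hNEG hNEAR Ω d h s ε om hs hsk hε hε2 l (c 1 l) (c 0 l)
      (hC.cmono l hl 0 (by omega)) (dd 0) (hC.cnt_le l hl 0 (by omega))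
      (by have := hexp 0 (by omega); rwa [hC.t0] at this)
    exact this
  -- cuts decrease
  have hcle : ∀ k, 1 ≤ k → k ≤ K → c k l ≤ c 1 l := by
    intro k hk
    induction k, hk using Nat.le_induction with
    | base => intro _; exact le_rfl
    | succ k hk ih => intro hkK; exact (hC.cmono l hl k (by omega)).trans (ih (by omega))
  have hstep : ∀ k, 1 ≤ k → k < K → (1 - ε) * (d.Pv l (c (k + 1) l) - err k - b)
      ≤ d.Pv l (c k l) := by
    intro k hk hkK
    have := hSTEP hNEG hNEAR hTEL hBIG Ω d h (t k) s ε om (hC.tpos k hkK) hs hsk hε hε2 l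
      (c (k + 1) l) (c k l) (hC.cmono l hl k hkK) (dd k) (hC.cnt_le l hl k hkK) (hexp k hkK)
      (fun j => e l j + tau) (fun j => add_nonneg (hC.e_nonneg l j) hC.tau_nonneg)
      (fun j hj _ hjk w => hC.del l hl j hj (lt_of_lt_of_le hjk (hcle k hk hkK.le)) w)
    have e1 : err k = ∑ j ∈ d.G.filter (fun j => c (k + 1) l ≤ j ∧ j < c k l),
        (e l j + tau) * (d.lam / t k * (2 * d.gn j + d.kap ^ 2 * om)) := by
      rw [herrdef]; dsimp only; rw [if_pos ⟨hk, hkK⟩]
    rw [e1]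
    exact this
  have hmain := scal_CHAIN (K := K) (P := fun k => d.Pv l (c k l)) (err := err) hε hε2 hb0 herr
    h0 hstep K hK le_rfl
  rw [hC.c0 l hl, hC.cK l hl, Pv_zero_CHAIN h l] at hmain
  have e2 : ∑ k ∈ Ico 1 K, err k
      = ∑ k ∈ Ico 1 K, ∑ j ∈ d.G.filter (fun j => c (k + 1) l ≤ j ∧ j < c k l),
        (e l j + tau) * (d.lam / t k * (2 * d.gn j + d.kap ^ 2 * om)) := by
    apply sum_congr rfl
    intro k hk
    have hk' := mem_Ico.mp hk
    rw [herrdef]; dsimp only; rw [if_pos hk']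
  rw [e2] at hmain
  have hbern : 1 / 2 ≤ (1 - ε) ^ K := by
    have := one_add_mul_le_pow (a := -ε) (by linarith) K
    have e3 : (1 + -ε) = 1 - ε := by ring
    rw [e3] at this
    have : (K : ℝ) * (-ε) = -(K * ε) := by ring
    linarith
  have hE0 : 0 ≤ E (fun w => d.D l w ^ 2) := E_nonneg (fun w => by positivity)
  have h7 : 1 / 2 * E (fun w => d.D l w ^ 2) ≤ (1 - ε) ^ K * E (fun w => d.D l w ^ 2) :=
    mul_le_mul_of_nonneg_right hbern hE0
  linarith

end Pool.Agent.Helper56.SS
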