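import Pool.Agent.Helper56.SS.St

/-! Project SN (MP_9a0a6c_an), part (3'): module FIN, the abstract theorem. -/

set_option autoImplicit false

namespace Pool.Agent.Helper56.SS

open Finset

theorem exch_FIN (G : Finset ℕ) (P : ℕ → ℕ → Prop) [∀ l j, Decidable (P l j)]
    (f : ℕ → ℕ → ℝ) :
    ∑ l ∈ G, ∑ j ∈ G.filter (fun j => P l j), f l j =
      ∑ j ∈ G, ∑ l ∈ G.filter (fun l => P l j), f l j := by
  simp_rw [Finset.sum_filter]
  rw [Finset.sum_comm]

theorem pvl_FIN (h2 : S_MOM) (h3 : S_HOL) (Ω : Type) [Fintype Ω] [Nonempty Ω] (d : Dat Ω)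
    (hd : Hyp d) (δ z : ℝ) (hδ : 0 < δ) (hδ4 : δ ≤ 1 / 4) (hδl : 4 * δ * d.lam ≤ 1)
    (hG : d.lam * d.eta * d.G.card ≤ 1 / 4) (l : ℕ) (hz : E (fun w => 1 - d.th l w) ≤ z) :
    d.Pv l l ≤ d.gn l + 3 * d.B0 ^ 2 * z ^ (δ / (1 + δ)) := by
  have hB0 : ∀ w, d.D l w ^ 2 ≤ d.B0 ^ 2 := by
    intro w
    rw [← sq_abs (d.D l w)]
    exact pow_le_pow_left₀ (abs_nonneg _) (hd.D_le l w) 2
  have h01 : ∀ w, 0 ≤ 1 - d.th l w := fun w => by linarith [hd.th_le_one l w]
  have h01' : ∀ w, 1 - d.th l w ≤ 1 := fun w => by linarith [hd.th_nonneg l w]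
  have e1 : d.Pv l l = E (fun w => d.R l w * d.D l w ^ 2) := by
    unfold Dat.Pv
    exact d.F.E_mul_C (hd.R_meas l) _
  have e2 : E (fun w => d.R l w * d.D l w ^ 2) ≤
      E (fun w => d.R l w * (d.th l w * d.D l w ^ 2) + d.B0 ^ 2 * (d.R l w * (1 - d.th l w))) := by
    apply E_mono
    intro w
    have a1 := (hd.R_pos l w).le
    have a2 : d.R l w * (1 - d.th l w) * d.D l w ^ 2 ≤
        d.R l w * (1 - d.th l w) * d.B0 ^ 2 :=
      mul_le_mul_of_nonneg_left (hB0 w) (mul_nonneg a1 (h01 w))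
    calc d.R l w * d.D l w ^ 2
        = d.R l w * (d.th l w * d.D l w ^ 2) + d.R l w * (1 - d.th l w) * d.D l w ^ 2 := by ring
      _ ≤ d.R l w * (d.th l w * d.D l w ^ 2) + d.R l w * (1 - d.th l w) * d.B0 ^ 2 := by linarith
      _ = _ := by ring
  have e3 : E (fun w => d.R l w * (1 - d.th l w)) ≤ 3 * z ^ (δ / (1 + δ)) := by
    refine (h3 h2 Ω d hd δ hδ hδ4 hδl hG l (fun w => 1 - d.th l w) h01 h01').trans ?_
    apply mul_le_mul_of_nonneg_left _ (by norm_num)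
    exact Real.rpow_le_rpow (E_nonneg h01) hz (by positivity)
  rw [e1]
  refine e2.trans ?_
  rw [E_add, E_mul_left]
  have e4 : d.B0 ^ 2 * E (fun w => d.R l w * (1 - d.th l w)) ≤
      d.B0 ^ 2 * (3 * z ^ (δ / (1 + δ))) := mul_le_mul_of_nonneg_left e3 (by positivity)
  have e5 : E (fun w => d.R l w * (d.th l w * d.D l w ^ 2)) = d.gn l := rfl
  rw [e5]
  linarith

theorem m_fin (h1 : S_GAIN) (h2 : S_MOM) (h3 : S_HOL) (h4 : S_CHAIN) (h5 : S_STEP)
    (h6 : S_STEP0) (h7 : S_NEG) (h8 : S_NEAR) (h9 : S_TEL) (h10 : S_BIG) : S_FIN := by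
  intro Ω _ _ d hd K c t dd e tau M hc s ε om δ z hs hslk hε hKε hom hδ hδ4 hδl hG hz
  have hlam := hd.lam_pos
  have chain := h4 h5 h6 h7 h8 h9 h10 Ω d hd K c t dd e tau M hc s ε om hs hslk hε hKε hom
  have homp : 0 ≤ om := (Real.exp_pos _).le.trans (hom 0 hc.Kpos)
  have hgain : d.lam * ∑ j ∈ d.G, d.gn j ≤ 3 := by
    have a1 := h1 Ω d hd
    linarith
  have hgsum : ∑ j ∈ d.G, d.gn j ≤ 3 / d.lam := by
    rw [le_div_iff₀ hlam]
    linarith
  have hgnn : 0 ≤ ∑ j ∈ d.G, d.gn j := Finset.sum_nonneg fun j _ => hd.gn_nonneg j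
  have hsum := Finset.sum_le_sum chain
  have hpv : ∑ l ∈ d.G, d.Pv l l ≤
      3 / d.lam + d.G.card * (3 * d.B0 ^ 2 * z ^ (δ / (1 + δ))) := by
    refine (Finset.sum_le_sum fun l hl =>
      pvl_FIN h2 h3 Ω d hd δ z hδ hδ4 hδl hG l (hz l hl)).trans ?_
    rw [Finset.sum_add_distrib, Finset.sum_const, nsmul_eq_mul]
    linarith
  have herr : ∑ l ∈ d.G, ∑ k ∈ Ico 1 K, ∑ j ∈ d.G.filter (fun j => c (k + 1) l ≤ j ∧ j < c k l),
        (e l j + tau) * (d.lam / t k * (2 * d.gn j + d.kap ^ 2 * om)) ≤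
      ∑ k ∈ Ico 1 K, (M k + d.G.card * tau) *
        (1 / t k * (6 + d.G.card * (d.lam * d.kap ^ 2 * om))) := by
    rw [Finset.sum_comm]
    apply Finset.sum_le_sum
    intro k hk
    rw [Finset.mem_Ico] at hk
    have htk := hc.tpos k hk.2
    rw [exch_FIN d.G (fun l j => c (k + 1) l ≤ j ∧ j < c k l)
      (fun l j => (e l j + tau) * (d.lam / t k * (2 * d.gn j + d.kap ^ 2 * om)))]
    have b1 : ∀ j ∈ d.G, ∑ l ∈ d.G.filter (fun l => c (k + 1) l ≤ j ∧ j < c k l),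
        (e l j + tau) * (d.lam / t k * (2 * d.gn j + d.kap ^ 2 * om)) ≤
        (M k + d.G.card * tau) * (d.lam / t k * (2 * d.gn j + d.kap ^ 2 * om)) := by
      intro j hj
      rw [← Finset.sum_mul]
      have hgn := hd.gn_nonneg j
      apply mul_le_mul_of_nonneg_right _ (by positivity)
      rw [Finset.sum_add_distrib, Finset.sum_const, nsmul_eq_mul]
      have c1 := hc.Mb k hk.1 hk.2 j hj
      have c2 : (((d.G.filter (fun l => c (k + 1) l ≤ j ∧ j < c k l)).card : ℕ) : ℝ) ≤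
          (d.G.card : ℝ) := by
        exact_mod_cast Finset.card_filter_le _ _
      have c3 := mul_le_mul_of_nonneg_right c2 hc.tau_nonneg
      linarith
    refine (Finset.sum_le_sum b1).trans ?_
    rw [← Finset.mul_sum]
    apply mul_le_mul_of_nonneg_left
    · rw [← Finset.mul_sum, Finset.sum_add_distrib, ← Finset.mul_sum, Finset.sum_const,
        nsmul_eq_mul]
      have : d.lam / t k * (2 * ∑ i ∈ d.G, d.gn i + d.G.card * (d.kap ^ 2 * om)) =
          1 / t k * (2 * (d.lam * ∑ i ∈ d.G, d.gn i) + d.G.card * (d.lam * d.kap ^ 2 * om)) := by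
        ring
      rw [this]
      apply mul_le_mul_of_nonneg_left _ (by positivity)
      linarith
    · have := hc.M_nonneg k
      have := hc.tau_nonneg
      positivity
  rw [Finset.sum_sub_distrib, Finset.sum_sub_distrib, Finset.sum_const, nsmul_eq_mul,
    ← Finset.sum_div] at hsum
  linarith

end Pool.Agent.Helper56.SS
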