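import Pool.Agent.Helper56.SS.St

set_option linter.unusedSectionVars false

namespace Pool.Agent.Helper56.SS

open Finset

private theorem bern_MOM {x δ : ℝ} (hx : |x| ≤ 1 / 4) (h0 : 0 < δ) (h1 : δ ≤ 1 / 4) :
    (1 + x) ^ (1 + δ) ≤ 1 + (1 + δ) * x + δ * x ^ 2 := by
  have hx1 := (abs_le.mp hx).1
  have hp : 0 < 1 + x := by linarith
  rw [Real.rpow_add hp, Real.rpow_one]
  have h2 : (1 + x) ^ δ ≤ 1 + δ * x :=
    rpow_one_add_le_one_add_mul_self (by linarith) h0.le (by linarith)
  calc (1 + x) * (1 + x) ^ δ ≤ (1 + x) * (1 + δ * x) :=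
        mul_le_mul_of_nonneg_left h2 hp.le
    _ = _ := by ring

private theorem step_MOM {Ω : Type} [Fintype Ω] [Nonempty Ω] (d : Dat Ω) (h : Hyp d) (δ : ℝ)
    (h0 : 0 < δ) (h1 : δ ≤ 1 / 4) (h4 : 4 * δ * d.lam ≤ 1) (n : ℕ) (hn : n ∈ d.G) :
    E (fun w => d.R (n + 1) w ^ (1 + δ) * (3 - d.f w)) ≤
      (1 + d.lam * d.eta) * E (fun w => d.R n w ^ (1 + δ) * (3 - d.f w)) := by
  have hl := h.lam_pos
  set g : Ω → ℝ := fun w => d.R n w ^ (1 + δ) with hg
  have gpos : ∀ w, 0 ≤ g w := fun w => Real.rpow_nonneg (h.R_pos n w).le _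
  have gm : d.F.Meas n g := (h.R_meas n).comp (fun r => r ^ (1 + δ))
  have hx : ∀ w, d.x n w = d.lam * d.th n w * d.D n w := by
    intro w; unfold Dat.x; rw [if_pos hn]
  have hxx : ∀ w, d.x n w ^ 2 = d.lam ^ 2 * (d.th n w * d.D n w ^ 2) := by
    intro w
    rw [hx w]
    have := h.th_sq n w
    calc (d.lam * d.th n w * d.D n w) ^ 2 = d.lam ^ 2 * (d.th n w ^ 2 * d.D n w ^ 2) := by ring
      _ = _ := by rw [this]
  -- pointwise bound
  have e1 : E (fun w => d.R (n + 1) w ^ (1 + δ) * (3 - d.f w)) ≤
      E (fun w => g w * (3 - d.f w) + ((1 + δ) * (3 * (g w * d.x n w))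
        - (1 + δ) * (d.lam * ((g w * d.th n w) * d.f w * d.D n w))
        + δ * (4 * (d.lam ^ 2 * ((g w * d.th n w) * d.D n w ^ 2))))) := by
    apply E_mono
    intro w
    have hf := abs_le.mp (h.f_le w)
    have hR := h.R_pos n w
    have hx0 := h.abs_x_le' n w
    have h3 : d.R (n + 1) w ^ (1 + δ) = g w * (1 + d.x n w) ^ (1 + δ) := by
      rw [h.R_succ, Real.mul_rpow hR.le (by have := h.one_add_x_pos n w; linarith)]
    rw [h3]
    have h5 := bern_MOM hx0 h0 h1
    have h6 : g w * (1 + d.x n w) ^ (1 + δ) * (3 - d.f w)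
        ≤ g w * (1 + (1 + δ) * d.x n w + δ * d.x n w ^ 2) * (3 - d.f w) := by
      apply mul_le_mul_of_nonneg_right _ (by linarith)
      exact mul_le_mul_of_nonneg_left h5 (gpos w)
    refine h6.trans ?_
    have h7 : g w * (δ * d.x n w ^ 2) * (3 - d.f w) ≤ g w * (δ * d.x n w ^ 2) * 4 := by
      apply mul_le_mul_of_nonneg_left (by linarith)
      have := gpos w
      positivity
    have h8 := hxx w
    have h9 := hx w
    calc g w * (1 + (1 + δ) * d.x n w + δ * d.x n w ^ 2) * (3 - d.f w)
        = g w * (3 - d.f w) + (1 + δ) * (3 * (g w * d.x n w))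
          - (1 + δ) * (g w * d.x n w * d.f w) + g w * (δ * d.x n w ^ 2) * (3 - d.f w) := by ring
      _ ≤ g w * (3 - d.f w) + (1 + δ) * (3 * (g w * d.x n w))
          - (1 + δ) * (g w * d.x n w * d.f w) + g w * (δ * d.x n w ^ 2) * 4 := by linarith
      _ = g w * (3 - d.f w) + ((1 + δ) * (3 * (g w * d.x n w))
        - (1 + δ) * (d.lam * ((g w * d.th n w) * d.f w * d.D n w))
        + δ * (4 * (d.lam ^ 2 * ((g w * d.th n w) * d.D n w ^ 2)))) := by
          rw [h8, h9]; ring
  refine e1.trans ?_
  rw [E_add (fun w => g w * (3 - d.f w)), E_add, E_sub, E_mul_left (1 + δ), E_mul_left (1 + δ),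
    E_mul_left δ, E_mul_left 3, E_mul_left d.lam, E_mul_left 4, E_mul_left (d.lam ^ 2)]
  have e2 : E (fun w => g w * d.x n w) = 0 := by
    rw [← d.F.E_mul_C gm]
    have : (fun w => g w * d.F.C n (d.x n) w) = fun _ => (0 : ℝ) := by
      funext w; rw [h.C_x]; ring
    rw [this, E_zero]
  rw [e2]
  set V := E (fun w => g w * d.th n w * d.D n w ^ 2) with hV
  set W := E (fun w => g w * d.th n w) with hW
  set A := E (fun w => g w * (3 - d.f w)) with hA
  set Q := E (fun w => g w * d.th n w * d.f w * d.D n w) with hQ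
  have hV0 : 0 ≤ V := by
    apply E_nonneg
    intro w
    have := gpos w
    have := h.th_nonneg n w
    positivity
  have hgain : V - d.eta * W ≤ Q := by
    have := h.gain n hn (fun w => g w * d.th n w) (gm.mul (h.th_meas n))
      (fun w => mul_nonneg (gpos w) (h.th_nonneg n w))
    exact this
  have hW0 : 0 ≤ W := E_nonneg (fun w => mul_nonneg (gpos w) (h.th_nonneg n w))
  have hWA : 2 * W ≤ A := by
    rw [hW, hA, ← E_mul_left]
    apply E_mono
    intro w
    have hf := abs_le.mp (h.f_le w)
    have t1 := h.th_le_one n w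
    have t0 := h.th_nonneg n w
    have g0 := gpos w
    nlinarith [mul_nonneg g0 (by linarith : (0:ℝ) ≤ 1 - d.th n w),
      mul_nonneg g0 (by linarith : (0:ℝ) ≤ 1 - d.f w)]
  have he := h.eta_nonneg
  have k1 : (1 + δ) * (d.lam * (V - d.eta * W)) ≤ (1 + δ) * (d.lam * Q) := by
    gcongr
  have k2 : δ * (4 * (d.lam ^ 2 * V)) ≤ (1 + δ) * (d.lam * V) := by
    have : δ * (4 * (d.lam ^ 2 * V)) = (4 * δ * d.lam) * (d.lam * V) := by ring
    rw [this]
    apply mul_le_mul_of_nonneg_right _ (by positivity)
    linarith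
  have k3 : (1 + δ) * (d.lam * (d.eta * W)) ≤ d.lam * d.eta * A := by
    have : (1 + δ) * (d.lam * (d.eta * W)) = (d.lam * d.eta) * ((1 + δ) * W) := by ring
    rw [this]
    apply mul_le_mul_of_nonneg_left _ (by positivity)
    nlinarith
  have k4 : (1 + δ) * (d.lam * (V - d.eta * W)) = (1 + δ) * (d.lam * V)
      - (1 + δ) * (d.lam * (d.eta * W)) := by ring
  have k5 : (1 + d.lam * d.eta) * A = A + d.lam * d.eta * A := by ring
  rw [k5]
  linarith

theorem m_mom : S_MOM := by
  intro Ω _ _ d h δ h0 h1 h4 hG n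
  have hl := h.lam_pos
  have he := h.eta_nonneg
  have hle : 0 ≤ d.lam * d.eta := by positivity
  have key : ∀ n, E (fun w => d.R n w ^ (1 + δ) * (3 - d.f w)) ≤
      4 * (1 + d.lam * d.eta) ^ (d.G.filter (fun j => j < n)).card := by
    intro n
    induction n with
    | zero =>
      have : (d.G.filter (fun j => j < 0)) = ∅ := by
        apply filter_eq_empty_iff.mpr; intro j _; omega
      rw [this, card_empty, pow_zero, mul_one]
      calc E (fun w => d.R 0 w ^ (1 + δ) * (3 - d.f w)) ≤ E (fun _ : Ω => (4 : ℝ)) := by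
            apply E_mono
            intro w
            have hf := abs_le.mp (h.f_le w)
            rw [h.R_zero, Real.one_rpow]
            linarith
        _ = 4 := E_const 4
    | succ n ih =>
      by_cases hn : n ∈ d.G
      · have hc : (d.G.filter (fun j => j < n + 1)).card
            = (d.G.filter (fun j => j < n)).card + 1 := by
          have : d.G.filter (fun j => j < n + 1) = insert n (d.G.filter (fun j => j < n)) := by
            ext j
            simp only [mem_filter, mem_insert]
            constructor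
            · rintro ⟨a, b⟩
              rcases Nat.lt_succ_iff_lt_or_eq.mp b with c | c
              · exact Or.inr ⟨a, c⟩
              · exact Or.inl c
            · rintro (a | ⟨a, b⟩)
              · subst a; exact ⟨hn, Nat.lt_succ_self _⟩
              · exact ⟨a, by omega⟩
          rw [this, card_insert_of_notMem]
          simp
        rw [hc, pow_succ]
        refine (step_MOM d h δ h0 h1 h4 n hn).trans ?_
        calc (1 + d.lam * d.eta) * E (fun w => d.R n w ^ (1 + δ) * (3 - d.f w))
            ≤ (1 + d.lam * d.eta) *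
              (4 * (1 + d.lam * d.eta) ^ (d.G.filter (fun j => j < n)).card) := by
              apply mul_le_mul_of_nonneg_left ih (by positivity)
          _ = _ := by ring
      · have hc : d.G.filter (fun j => j < n + 1) = d.G.filter (fun j => j < n) := by
          ext j
          simp only [mem_filter]
          constructor
          · rintro ⟨a, b⟩
            refine ⟨a, ?_⟩
            rcases Nat.lt_succ_iff_lt_or_eq.mp b with c | c
            · exact c
            · subst c; exact absurd a hn
          · rintro ⟨a, b⟩; exact ⟨a, by omega⟩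
        rw [hc]
        have e : (fun w => d.R (n + 1) w ^ (1 + δ) * (3 - d.f w))
            = fun w => d.R n w ^ (1 + δ) * (3 - d.f w) := by
          funext w
          rw [h.R_succ]
          have : d.x n w = 0 := by unfold Dat.x; rw [if_neg hn]
          rw [this, add_zero, mul_one]
        rw [e]; exact ih
  have hcard : ((d.G.filter (fun j => j < n)).card : ℝ) ≤ d.G.card := by
    exact_mod_cast card_filter_le _ _
  have b1 : (1 + d.lam * d.eta) ^ (d.G.filter (fun j => j < n)).card ≤ Real.exp (1 / 4) := by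
    calc (1 + d.lam * d.eta) ^ (d.G.filter (fun j => j < n)).card
        ≤ (Real.exp (d.lam * d.eta)) ^ (d.G.filter (fun j => j < n)).card := by
          apply pow_le_pow_left₀ (by positivity)
          have := Real.add_one_le_exp (d.lam * d.eta)
          linarith
      _ = Real.exp ((d.G.filter (fun j => j < n)).card * (d.lam * d.eta)) := by
          rw [← Real.exp_nat_mul]
      _ ≤ Real.exp (1 / 4) := by
          apply Real.exp_le_exp.mpr
          calc ((d.G.filter (fun j => j < n)).card : ℝ) * (d.lam * d.eta)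
              ≤ (d.G.card : ℝ) * (d.lam * d.eta) := mul_le_mul_of_nonneg_right hcard hle
            _ = d.lam * d.eta * d.G.card := by ring
            _ ≤ 1 / 4 := hG
  have b2 : Real.exp (1 / 4) ≤ 3 / 2 := by
    have e1 : Real.exp (1 / 4) ^ 4 = Real.exp 1 := by
      rw [← Real.exp_nat_mul]; norm_num
    have e2 := Real.exp_one_lt_d9
    by_contra hc
    push Not at hc
    have : (3 / 2 : ℝ) ^ 4 < Real.exp (1 / 4) ^ 4 := by gcongr
    rw [e1] at this
    norm_num at this
    linarith
  have b3 : 2 * E (fun w => d.R n w ^ (1 + δ)) ≤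
      E (fun w => d.R n w ^ (1 + δ) * (3 - d.f w)) := by
    rw [← E_mul_left]
    apply E_mono
    intro w
    have hf := abs_le.mp (h.f_le w)
    have := Real.rpow_nonneg (h.R_pos n w).le (1 + δ)
    nlinarith
  have := key n
  have h5 : (4 : ℝ) * (1 + d.lam * d.eta) ^ (d.G.filter (fun j => j < n)).card ≤ 6 := by
    linarith
  linarith

end Pool.Agent.Helper56.SS
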