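import Pool.Agent.Helper56.SS.St

/-! Project SN, module NEAR. -/

namespace Pool.Agent.Helper56.SS

open Finset

private theorem pt_NEAR (r S phi Phi ep s : ℝ) (hr : 0 < r) (hS : 0 < S) (h0 : 0 ≤ phi)
    (h1 : phi ≤ Phi) (he0 : 0 < ep) (he : ep < 1) (hs : 1 ≤ s) :
    (1 - ep) * (r * phi - Phi * ((1 - ep) ^ s * (r * S ^ (-s)))) ≤ r * S * phi := by
  have hP : 0 ≤ Phi := h0.trans h1
  have hep : 0 < 1 - ep := by linarith
  have hSs : 0 < S ^ (-s) := Real.rpow_pos_of_pos hS _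
  have hes : 0 < (1 - ep) ^ s := Real.rpow_pos_of_pos hep _
  by_cases hc : 1 - ep ≤ S
  · have a1 : (1 - ep) * (r * phi) ≤ S * (r * phi) :=
      mul_le_mul_of_nonneg_right hc (by positivity)
    have a2 : 0 ≤ (1 - ep) * (Phi * ((1 - ep) ^ s * (r * S ^ (-s)))) := by positivity
    nlinarith
  · have hc' : S ≤ 1 - ep := (not_le.mp hc).le
    have b1 : 1 ≤ (1 - ep) ^ s * S ^ (-s) := by
      rw [Real.rpow_neg hS.le, ← div_eq_mul_inv, le_div_iff₀ (Real.rpow_pos_of_pos hS _), one_mul]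
      exact Real.rpow_le_rpow hS.le hc' (by linarith)
    have b2 : r * phi ≤ Phi * ((1 - ep) ^ s * (r * S ^ (-s))) := by
      have c1 : r * phi ≤ Phi * r := by nlinarith
      have c2 : Phi * r * 1 ≤ Phi * r * ((1 - ep) ^ s * S ^ (-s)) :=
        mul_le_mul_of_nonneg_left b1 (by positivity)
      calc r * phi ≤ Phi * r * 1 := by linarith
        _ ≤ Phi * r * ((1 - ep) ^ s * S ^ (-s)) := c2
        _ = _ := by ring
    have b3 : (1 - ep) * (r * phi - Phi * ((1 - ep) ^ s * (r * S ^ (-s)))) ≤ 0 :=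
      mul_nonpos_of_nonneg_of_nonpos hep.le (by linarith)
    have b4 : 0 ≤ r * S * phi := by positivity
    linarith

theorem m_near : S_NEAR := by
  intro hNEG Ω _ _ d h t s ep om ht hs hlk he0 he a n han hom φ Φ h0 h1
  have key : ∀ w, (1 - ep) * (d.R a w * d.Bb t a n w * φ w -
      Φ * ((1 - ep) ^ s * (d.R a w * d.Bb t a n w * d.Ss t a n w ^ (-s)))) ≤
        d.R n w * φ w := by
    intro w
    rw [h.R_split t han w]
    exact pt_NEAR _ _ _ _ _ _ (mul_pos (h.R_pos a w) (h.Bb_pos t a n w)) (h.Ss_pos t a n w)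
      (h0 w) (h1 w) he0 he hs
  have h2 := E_mono key
  rw [E_mul_left, E_sub, E_mul_left, E_mul_left] at h2
  have h3 := hNEG Ω d h t s ht hs hlk a n han
  have hP : 0 ≤ Φ := by
    obtain ⟨w⟩ := (inferInstance : Nonempty Ω)
    exact (h0 w).trans (h1 w)
  have hep : 0 < 1 - ep := by linarith
  have h4 : (1 - ep) ^ s ≤ Real.exp (-(s * ep)) := by
    have c1 : 1 - ep ≤ Real.exp (-ep) := by
      have := Real.add_one_le_exp (-ep)
      linarith
    have c2 : (1 - ep) ^ s ≤ (Real.exp (-ep)) ^ s :=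
      Real.rpow_le_rpow hep.le c1 (by linarith)
    rw [← Real.exp_mul] at c2
    have c3 : -ep * s = -(s * ep) := by ring
    rwa [c3] at c2
  have h5 : (1 - ep) ^ s * E (fun w => d.R a w * d.Bb t a n w * d.Ss t a n w ^ (-s)) ≤ om := by
    refine le_trans ?_ hom
    rw [Real.exp_add]
    refine mul_le_mul h4 h3 ?_ (Real.exp_pos _).le
    apply E_nonneg
    intro w
    have e1 := h.R_pos a w
    have e2 := h.Bb_pos t a n w
    have e3 := Real.rpow_pos_of_pos (h.Ss_pos t a n w) (-s)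
    positivity
  refine le_trans ?_ h2
  apply mul_le_mul_of_nonneg_left _ hep.le
  have h6 := mul_le_mul_of_nonneg_left h5 hP
  linarith

end Pool.Agent.Helper56.SS
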