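import Pool.Agent.Helper56.SS.St

/-! Project SN, part (3'), module NEG: the negative moment of the small part. -/

set_option linter.unusedSectionVars false

namespace Pool.Agent.Helper56.SS

open Finset

private theorem log_NEG {y : ℝ} (hy : |y| ≤ 1 / 4) : y - 4 / 3 * y ^ 2 ≤ Real.log (1 + y) := by
  have h1 : |(-y)| < 1 := by rw [abs_neg]; linarith
  have h2 := Real.abs_log_sub_add_sum_range_le h1 1
  simp only [Finset.sum_range_one, Nat.cast_zero, zero_add, pow_one, div_one, abs_neg,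
    sub_neg_eq_add] at h2
  have h3 : |y| ^ (1 + 1) / (1 - |y|) ≤ 4 / 3 * y ^ 2 := by
    rw [div_le_iff₀ (by linarith), show |y| ^ (1 + 1) = y ^ 2 by rw [one_add_one_eq_two, sq_abs]]
    nlinarith [sq_nonneg y]
  have h4 := (abs_le.1 h2).1
  linarith

private theorem rpow_NEG {s y : ℝ} (hs : 1 ≤ s) (hy : s * |y| ≤ 1 / 4) :
    (1 + y) ^ (-s) ≤ 1 - s * y + 5 * s ^ 2 * y ^ 2 := by
  have hy0 := abs_nonneg y
  have hy1 : |y| ≤ 1 / 4 := by nlinarith
  have hy2 : y ^ 2 = |y| ^ 2 := (sq_abs y).symm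
  have hpos : 0 < 1 + y := by
    have := neg_abs_le y
    linarith
  rw [Real.rpow_def_of_pos hpos]
  have h1 : Real.log (1 + y) * (-s) ≤ -s * y + 4 / 3 * (s * y ^ 2) := by
    have := mul_le_mul_of_nonneg_left (log_NEG hy1) (by linarith : (0 : ℝ) ≤ s)
    nlinarith
  refine (Real.exp_le_exp.2 h1).trans ?_
  set u : ℝ := -s * y + 4 / 3 * (s * y ^ 2) with hu
  have hsy : s * y ^ 2 ≤ s * |y| * (1 / 4) := by
    rw [hy2]
    have : 0 ≤ s * |y| := by positivity
    nlinarith
  have hsy0 : 0 ≤ s * y ^ 2 := by positivity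
  have hu1 : |u| ≤ 4 / 3 * (s * |y|) := by
    rw [hu]
    refine (abs_add_le _ _).trans ?_
    rw [neg_mul, abs_neg, abs_mul, abs_of_nonneg (by linarith : (0 : ℝ) ≤ s),
      abs_of_nonneg (by positivity : (0 : ℝ) ≤ 4 / 3 * (s * y ^ 2))]
    linarith
  have hu2 : |u| ≤ 1 := by linarith
  have h3 := (abs_le.1 (Real.abs_exp_sub_one_sub_id_le hu2)).2
  have h4 : u ^ 2 ≤ 16 / 9 * (s ^ 2 * y ^ 2) := by
    rw [← sq_abs u, hy2]
    have : |u| ^ 2 ≤ (4 / 3 * (s * |y|)) ^ 2 := pow_le_pow_left₀ (abs_nonneg _) hu1 2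
    nlinarith
  have h5 : s * y ^ 2 ≤ s ^ 2 * y ^ 2 := by
    apply mul_le_mul_of_nonneg_right _ (sq_nonneg y)
    nlinarith
  have h6 : 0 ≤ s ^ 2 * y ^ 2 := by positivity
  nlinarith

private theorem cnt_succ_mem_NEG {Ω : Type} [Fintype Ω] (d : Dat Ω) {a n : ℕ} (han : a ≤ n)
    (hn : n ∈ d.G) : d.cnt a (n + 1) = d.cnt a n + 1 := by
  unfold Dat.cnt
  have : d.G.filter (fun j => a ≤ j ∧ j < n + 1) =
      insert n (d.G.filter (fun j => a ≤ j ∧ j < n)) := by
    ext j
    simp only [mem_filter, mem_insert]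
    constructor
    · rintro ⟨h1, h2, h3⟩
      rcases Nat.lt_succ_iff_lt_or_eq.1 h3 with h | h
      · exact Or.inr ⟨h1, h2, h⟩
      · exact Or.inl h
    · rintro (h | ⟨h1, h2, h3⟩)
      · subst h
        exact ⟨hn, han, Nat.lt_succ_self _⟩
      · exact ⟨h1, h2, by omega⟩
  rw [this, card_insert_of_notMem]
  simp

private theorem cnt_mono_NEG {Ω : Type} [Fintype Ω] (d : Dat Ω) (a n : ℕ) :
    d.cnt a n ≤ d.cnt a (n + 1) := by
  unfold Dat.cnt
  apply card_le_card
  intro j
  simp only [mem_filter]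
  rintro ⟨h1, h2, h3⟩
  exact ⟨h1, h2, by omega⟩

theorem m_neg : S_NEG := by
  intro Ω _ _ d h t s ht hs hsk a n han
  have hlk : 0 ≤ d.lam ^ 2 * t ^ 2 := by positivity
  induction n, han using Nat.le_induction with
  | base =>
    have e : (fun w => d.R a w * d.Bb t a a w * d.Ss t a a w ^ (-s)) = d.R a := by
      funext w
      rw [h.Bb_self, h.Ss_self, Real.one_rpow]
      ring
    rw [e, h.E_R]
    exact Real.one_le_exp (by positivity)
  | succ n han ih =>
    classical
    set g : Ω → ℝ := fun w => d.R a w * d.Bb t a n w * d.Ss t a n w ^ (-s) with hg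
    have hgm : d.F.Meas n g :=
      (((h.R_meas a).mono han).mul (h.Bb_meas t a n)).mul
        ((h.Ss_meas t a n).comp (fun z => z ^ (-s)))
    have hg0 : ∀ w, 0 ≤ g w := fun w => by
      have h1 := h.R_pos a w
      have h2 := h.Bb_pos t a n w
      have h3 := Real.rpow_pos_of_pos (h.Ss_pos t a n w) (-s)
      exact (mul_pos (mul_pos h1 h2) h3).le
    set H : Ω → ℝ := fun w => (1 + d.xb t n w) * (1 + d.xs t n w) ^ (-s) with hH
    have e1 : (fun w => d.R a w * d.Bb t a (n + 1) w * d.Ss t a (n + 1) w ^ (-s)) =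
        fun w => g w * H w := by
      funext w
      have h3 := h.Ss_pos t a n w
      have h4 := h.one_add_xs_pos t n w
      rw [h.Bb_succ t han, h.Ss_succ t han, Real.mul_rpow h3.le (by linarith), hg, hH]
      ring
    rw [e1, ← d.F.E_mul_C hgm]
    -- pointwise bound
    have hpt : ∀ w, H w ≤ (1 + d.xb t n w) - s * d.xs t n w + 5 * s ^ 2 * d.xs t n w ^ 2 := by
      intro w
      have habs : s * |d.xs t n w| ≤ 1 / 4 :=
        (mul_le_mul_of_nonneg_left (h.abs_xs_le t n w) (by linarith)).trans hsk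
      by_cases hc : t ^ 2 < d.sg n w
      · have e2 : d.xs t n w = 0 := by unfold Dat.xs; rw [if_pos hc]
        rw [hH]
        simp only [e2]
        simp
      · have e2 : d.xb t n w = 0 := by unfold Dat.xb; rw [if_neg hc]
        have h5 := rpow_NEG hs habs
        rw [hH]
        simp only [e2]
        linarith
    have hC : ∀ w, d.F.C n H w ≤ 1 + 5 * s ^ 2 * d.F.C n (fun v => d.xs t n v ^ 2) w := by
      intro w
      refine (d.F.C_mono hpt w).trans (le_of_eq ?_)
      have e3 : (fun w => (1 + d.xb t n w) - s * d.xs t n w + 5 * s ^ 2 * d.xs t n w ^ 2) =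
          fun w => (((fun w => (fun _ => (1 : ℝ)) w + d.xb t n w) w) -
            (fun w => s * d.xs t n w) w) + (fun w => 5 * s ^ 2 * d.xs t n w ^ 2) w := by
        funext w; ring
      rw [e3, d.F.C_add n (fun w => ((fun w => (fun _ => (1 : ℝ)) w + d.xb t n w) w) -
        (fun w => s * d.xs t n w) w), d.F.C_sub n (fun w => (fun _ => (1 : ℝ)) w + d.xb t n w),
        d.F.C_add, d.F.C_const, h.C_xb, d.F.C_mul_left, h.C_xs, d.F.C_mul_left]
      ring
    by_cases hn : n ∈ d.G
    · have h6 : ∀ w, g w * d.F.C n H w ≤ g w * (1 + 5 * s ^ 2 * (d.lam ^ 2 * t ^ 2)) := by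
        intro w
        apply mul_le_mul_of_nonneg_left _ (hg0 w)
        have h7 := h.C_xs_sq t n w hn
        have h8 : 5 * s ^ 2 * d.F.C n (fun v => d.xs t n v ^ 2) w ≤
            5 * s ^ 2 * (d.lam ^ 2 * t ^ 2) := mul_le_mul_of_nonneg_left h7 (by positivity)
        linarith [hC w]
      refine (E_mono h6).trans ?_
      rw [E_mul_right, cnt_succ_mem_NEG d han hn]
      have h9 : 1 + 5 * s ^ 2 * (d.lam ^ 2 * t ^ 2) ≤
          Real.exp (5 * s ^ 2 * (d.lam ^ 2 * t ^ 2)) := by
        have := Real.add_one_le_exp (5 * s ^ 2 * (d.lam ^ 2 * t ^ 2))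
        linarith
      calc E g * (1 + 5 * s ^ 2 * (d.lam ^ 2 * t ^ 2)) ≤
          Real.exp (5 * s ^ 2 * (d.cnt a n * (d.lam ^ 2 * t ^ 2))) *
            Real.exp (5 * s ^ 2 * (d.lam ^ 2 * t ^ 2)) :=
            mul_le_mul ih h9 (by positivity) (Real.exp_pos _).le
        _ = _ := by
            rw [← Real.exp_add]
            congr 1
            push_cast
            ring
    · have h6 : ∀ w, g w * d.F.C n H w ≤ g w := by
        intro w
        have h7 : d.F.C n (fun v => d.xs t n v ^ 2) w = 0 := by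
          have : (fun v => d.xs t n v ^ 2) = fun _ => (0 : ℝ) := by
            funext v
            rw [h.xs_zero_of_notMem t n v hn]
            ring
          rw [this, d.F.C_const]
        have h8 := hC w
        rw [h7, mul_zero, add_zero] at h8
        calc g w * d.F.C n H w ≤ g w * 1 := mul_le_mul_of_nonneg_left h8 (hg0 w)
          _ = g w := mul_one _
      refine (E_mono h6).trans (ih.trans ?_)
      apply Real.exp_le_exp.2
      have h10 : (d.cnt a n : ℝ) ≤ d.cnt a (n + 1) := by exact_mod_cast cnt_mono_NEG d a n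
      have h11 : (d.cnt a n : ℝ) * (d.lam ^ 2 * t ^ 2) ≤ d.cnt a (n + 1) * (d.lam ^ 2 * t ^ 2) :=
        mul_le_mul_of_nonneg_right h10 hlk
      exact mul_le_mul_of_nonneg_left h11 (by positivity)

end Pool.Agent.Helper56.SS
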