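import Pool.Agent.Helper56.SS.St

/-! Project SN (MP_9a0a6c_an), part (3'), module STEP. -/

namespace Pool.Agent.Helper56.SS

open Finset

private theorem cnt_mono_STEP {Ω : Type} [Fintype Ω] (d : Dat Ω) {a j n : ℕ} (hjn : j ≤ n) :
    d.cnt a j ≤ d.cnt a n := by
  unfold Dat.cnt
  apply card_le_card
  intro i hi
  rw [mem_filter] at hi ⊢
  exact ⟨hi.1, hi.2.1, hi.2.2.trans_le hjn⟩

theorem m_step : S_STEP := by
  intro hNEG hNEAR hTEL hBIG Ω _ _ d h t s ε om ht hs hsk hε hε2 l a n han dd hdd hexp u hu hdel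
  have hcond : ∀ j ≤ n, Real.exp (-(s * ε) + 5 * s ^ 2 * (d.cnt a j * (d.lam ^ 2 * t ^ 2))) ≤ om := by
    intro j hj
    refine le_trans (Real.exp_le_exp.2 ?_) hexp
    have h1 : (d.cnt a j : ℝ) ≤ dd := (by exact_mod_cast cnt_mono_STEP d hj : (d.cnt a j : ℝ) ≤ d.cnt a n).trans hdd
    have h2 : (d.cnt a j : ℝ) * (d.lam ^ 2 * t ^ 2) ≤ dd * (d.lam ^ 2 * t ^ 2) := by gcongr
    have h3 : 5 * s ^ 2 * ((d.cnt a j : ℝ) * (d.lam ^ 2 * t ^ 2)) ≤
        5 * s ^ 2 * (dd * (d.lam ^ 2 * t ^ 2)) := by gcongr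
    linarith
  have h1 := hNEAR hNEG Ω d h t s ε om ht.le hs hsk hε (by linarith) a n han (hcond n le_rfl)
    (fun w => d.F.C n (fun v => d.D l v ^ 2) w) (d.B0 ^ 2)
    (fun w => d.F.C_nonneg (fun _ => by positivity) w) (fun w => by
      have h2 := d.F.C_mono (j := n) (g := fun v => d.D l v ^ 2) (h := fun _ => d.B0 ^ 2)
        (fun v => by
          have h3 := h.D_le l v
          have h4 := abs_nonneg (d.D l v)
          show d.D l v ^ 2 ≤ d.B0 ^ 2
          rw [← sq_abs]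
          gcongr) w
      rwa [d.F.C_const] at h2)
  have h2 := hTEL Ω d h t a n han (fun v => d.D l v ^ 2) u hdel
  have h3 : ∑ j ∈ d.G.filter (fun j => a ≤ j ∧ j < n), u j * E (fun w => d.R a w * d.Bb t a j w *
      |d.xb t j w|) ≤
      ∑ j ∈ d.G.filter (fun j => a ≤ j ∧ j < n),
        u j * (d.lam / t * (2 * d.gn j + d.kap ^ 2 * om)) := by
    refine sum_le_sum fun j hj => ?_
    rw [mem_filter] at hj
    exact mul_le_mul_of_nonneg_left
      (hBIG hNEG hNEAR Ω d h t s ε om ht hs hsk hε hε2 a j hj.2.1 hj.1 (hcond j hj.2.2.le)) (hu j)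
  have h4 : d.Pv l a - ∑ j ∈ d.G.filter (fun j => a ≤ j ∧ j < n),
        u j * (d.lam / t * (2 * d.gn j + d.kap ^ 2 * om)) ≤
      E (fun w => d.R a w * d.Bb t a n w * d.F.C n (fun v => d.D l v ^ 2) w) := by
    have h5 : d.Pv l a = E (fun w => d.R a w * d.F.C a (fun v => d.D l v ^ 2) w) := rfl
    rw [h5]
    linarith
  refine le_trans (mul_le_mul_of_nonneg_left ?_ (by linarith : (0 : ℝ) ≤ 1 - ε)) h1
  linarith

end Pool.Agent.Helper56.SS
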