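import Pool.Agent.Helper56.SS.St

/-! Project SN, module STEP0. -/

namespace Pool.Agent.Helper56.SS

open Finset

theorem m_step0 : S_STEP0 := by
  intro hN hR Ω _ _ d h s ε om hs hslk hε hε2 l a n han dd hdd hexp
  have hl := h.lam_pos
  have hk := h.kap_pos
  have hcnt : Real.exp (-(s * ε) + 5 * s ^ 2 * (d.cnt a n * (d.lam ^ 2 * d.kap ^ 2))) ≤ om := by
    refine le_trans (Real.exp_le_exp.mpr ?_) hexp
    have h1 : (d.cnt a n : ℝ) * (d.lam ^ 2 * d.kap ^ 2) ≤ dd * (d.lam ^ 2 * d.kap ^ 2) :=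
      mul_le_mul_of_nonneg_right hdd (by positivity)
    have h2 : 5 * s ^ 2 * (d.cnt a n * (d.lam ^ 2 * d.kap ^ 2))
        ≤ 5 * s ^ 2 * (dd * (d.lam ^ 2 * d.kap ^ 2)) :=
      mul_le_mul_of_nonneg_left h1 (by positivity)
    linarith
  have hφ0 : ∀ w, 0 ≤ d.F.C n (fun v => d.D l v ^ 2) w :=
    fun w => d.F.C_nonneg (fun _ => by positivity) w
  have hφ1 : ∀ w, d.F.C n (fun v => d.D l v ^ 2) w ≤ d.B0 ^ 2 := by
    intro w
    have h1 : d.F.C n (fun v => d.D l v ^ 2) w ≤ d.F.C n (fun _ => d.B0 ^ 2) w := by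
      apply d.F.C_mono
      intro v
      have h2 := h.D_le l v
      have h3 := abs_nonneg (d.D l v)
      rw [← sq_abs]
      gcongr
    rw [d.F.C_const] at h1
    exact h1
  have key := hR hN Ω d h d.kap s ε om hk.le hs hslk hε (by linarith) a n han hcnt
    (d.F.C n (fun v => d.D l v ^ 2)) (d.B0 ^ 2) hφ0 hφ1
  have hBb : ∀ w, d.Bb d.kap a n w = 1 := by
    intro w
    unfold Dat.Bb
    apply prod_eq_one
    intro i _
    rw [h.xb_kap i w, add_zero]
  have e1 : E (fun w => d.R a w * d.Bb d.kap a n w * d.F.C n (fun v => d.D l v ^ 2) w)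
      = d.Pv l a := by
    have e2 : (fun w => d.R a w * d.Bb d.kap a n w * d.F.C n (fun v => d.D l v ^ 2) w)
        = fun w => d.R a w * d.F.C n (fun v => d.D l v ^ 2) w := by
      funext w; rw [hBb w, mul_one]
    rw [e2, d.F.E_mul_C ((h.R_meas a).mono han)]
    unfold Dat.Pv
    rw [d.F.E_mul_C (h.R_meas a)]
  rw [e1] at key
  exact key

end Pool.Agent.Helper56.SS
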