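import Pool.Agent.Helper56.SS.St

/-! Project SN, module TEL: telescoping of the conditional averages. -/

set_option autoImplicit false
set_option linter.unusedSectionVars false

namespace Pool.Agent.Helper56.SS

open Finset

variable {Ω : Type} [Fintype Ω]

private lemma step_eq_TEL {d : Dat Ω} (h : Hyp d) (t : ℝ) {a n : ℕ} (han : a ≤ n) (g : Ω → ℝ) :
    E (fun w => d.R a w * d.Bb t a (n + 1) w * d.F.C (n + 1) g w) =
      E (fun w => d.R a w * d.Bb t a n w * d.F.C n g w) +
      E (fun w => d.R a w * d.Bb t a n w * d.xb t n w *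
        (d.F.C (n + 1) g w - d.F.C n g w)) := by
  have hB : d.F.Meas n (fun w => d.R a w * d.Bb t a n w) :=
    ((h.R_meas a).mono han).mul (h.Bb_meas t a n)
  have e1 : E (fun w => (d.R a w * d.Bb t a n w) * d.F.C (n + 1) g w) =
      E (fun w => d.R a w * d.Bb t a n w * d.F.C n g w) := by
    rw [← d.F.E_mul_C hB (d.F.C (n + 1) g)]
    congr 1
    funext w
    rw [d.F.tower (Nat.le_succ n)]
  have e2 : E (fun w => ((d.R a w * d.Bb t a n w) * d.F.C n g w) * d.xb t n w) = 0 := by
    rw [← d.F.E_mul_C (hB.mul (d.F.C_meas n g)) (d.xb t n)]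
    have : (fun w => ((d.R a w * d.Bb t a n w) * d.F.C n g w) * d.F.C n (d.xb t n) w) =
        fun _ => (0 : ℝ) := by
      funext w; rw [h.C_xb]; ring
    rw [this, E_zero]
  have e3 : (fun w => d.R a w * d.Bb t a (n + 1) w * d.F.C (n + 1) g w) =
      fun w => (d.R a w * d.Bb t a n w) * d.F.C (n + 1) g w +
        (d.R a w * d.Bb t a n w * d.xb t n w * (d.F.C (n + 1) g w - d.F.C n g w) +
          ((d.R a w * d.Bb t a n w) * d.F.C n g w) * d.xb t n w) := by
    funext w; rw [h.Bb_succ t han]; ring
  rw [e3, E_add, E_add, e1, e2, add_zero]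

private lemma filt_TEL (G : Finset ℕ) {a n : ℕ} (han : a ≤ n) (f : ℕ → ℝ) :
    ∑ j ∈ G.filter (fun j => a ≤ j ∧ j < n + 1), f j =
      ∑ j ∈ G.filter (fun j => a ≤ j ∧ j < n), f j + (if n ∈ G then f n else 0) := by
  classical
  split_ifs with hn
  · have : G.filter (fun j => a ≤ j ∧ j < n + 1) =
        insert n (G.filter (fun j => a ≤ j ∧ j < n)) := by
      ext j
      simp only [mem_filter, mem_insert]
      constructor
      · rintro ⟨h1, h2, h3⟩
        rcases Nat.lt_succ_iff_lt_or_eq.mp h3 with h4 | h4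
        · exact Or.inr ⟨h1, h2, h4⟩
        · exact Or.inl h4
      · rintro (h1 | ⟨h1, h2, h3⟩)
        · subst h1; exact ⟨hn, han, Nat.lt_succ_self _⟩
        · exact ⟨h1, h2, Nat.lt_succ_of_lt h3⟩
    rw [this, sum_insert (by simp), add_comm]
  · rw [add_zero]
    apply sum_congr _ (fun _ _ => rfl)
    ext j
    simp only [mem_filter]
    constructor
    · rintro ⟨h1, h2, h3⟩
      rcases Nat.lt_succ_iff_lt_or_eq.mp h3 with h4 | h4
      · exact ⟨h1, h2, h4⟩
      · subst h4; exact absurd h1 hn
    · rintro ⟨h1, h2, h3⟩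
      exact ⟨h1, h2, Nat.lt_succ_of_lt h3⟩

/-- Module TEL. -/
theorem m_tel : S_TEL := by
  classical
  intro Ω _ _ d h t a n han g u
  induction n, han using Nat.le_induction with
  | base =>
    intro _
    have h1 : d.G.filter (fun j => a ≤ j ∧ j < a) = ∅ := by
      apply filter_eq_empty_iff.mpr
      rintro j _ ⟨h2, h3⟩
      omega
    rw [h1, sum_empty, sub_zero]
    apply le_of_eq
    congr 1
    funext w
    rw [h.Bb_self, mul_one]
  | succ n han ih =>
    intro hu
    have ih' := ih (fun j hj h1 h2 w => hu j hj h1 (Nat.lt_succ_of_lt h2) w)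
    rw [step_eq_TEL h t han g, filt_TEL d.G han]
    have hpos : ∀ w, 0 ≤ d.R a w * d.Bb t a n w := fun w =>
      (mul_pos (h.R_pos a w) (h.Bb_pos t a n w)).le
    have key : -(if n ∈ d.G then u n * E (fun w => d.R a w * d.Bb t a n w * |d.xb t n w|)
        else 0) ≤
        E (fun w => d.R a w * d.Bb t a n w * d.xb t n w *
          (d.F.C (n + 1) g w - d.F.C n g w)) := by
      split_ifs with hn
      · have hun := hu n hn han (Nat.lt_succ_self n)
        rw [← E_mul_left, ← E_neg]
        apply E_mono
        intro w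
        have h1 := hun w
        have h2 := hpos w
        have h3 : |d.xb t n w * (d.F.C (n + 1) g w - d.F.C n g w)| ≤ |d.xb t n w| * u n := by
          rw [abs_mul]
          exact mul_le_mul_of_nonneg_left h1 (abs_nonneg _)
        have h4 := neg_abs_le (d.xb t n w * (d.F.C (n + 1) g w - d.F.C n g w))
        have h5 : -(|d.xb t n w| * u n) ≤ d.xb t n w * (d.F.C (n + 1) g w - d.F.C n g w) := by
          linarith
        calc -(u n * (d.R a w * d.Bb t a n w * |d.xb t n w|)) =
            (d.R a w * d.Bb t a n w) * -(|d.xb t n w| * u n) := by ring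
          _ ≤ (d.R a w * d.Bb t a n w) *
              (d.xb t n w * (d.F.C (n + 1) g w - d.F.C n g w)) :=
            mul_le_mul_of_nonneg_left h5 h2
          _ = _ := by ring
      · have : (fun w => d.R a w * d.Bb t a n w * d.xb t n w *
            (d.F.C (n + 1) g w - d.F.C n g w)) = fun _ => (0 : ℝ) := by
          funext w; rw [h.xb_zero_of_notMem t n w hn]; ring
        rw [this, E_zero, neg_zero]
    linarith

end Pool.Agent.Helper56.SS
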