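import Pool.Agent.Helper56.SS.M_GAIN
import Pool.Agent.Helper56.SS.M_MOM
import Pool.Agent.Helper56.SS.M_HOL
import Pool.Agent.Helper56.SS.M_NEG
import Pool.Agent.Helper56.SS.M_NEAR
import Pool.Agent.Helper56.SS.M_TEL
import Pool.Agent.Helper56.SS.M_BIG
import Pool.Agent.Helper56.SS.M_STEP
import Pool.Agent.Helper56.SS.M_STEP0
import Pool.Agent.Helper56.SS.M_CHAIN
import Pool.Agent.Helper56.SS.M_FIN

namespace Pool.Agent.Helper56.SS

/-- The abstract tilt theorem (part (3') of project SN). -/
theorem tFin : S_FIN := m_fin m_gain m_mom m_hol m_chain m_step m_step0 m_neg m_near m_tel m_big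

/-- moment bound of the tilt density -/
theorem tMom : S_MOM := m_mom

/-- Hoelder form -/
theorem tHol : S_HOL := m_hol

end Pool.Agent.Helper56.SS
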