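import Mathlib

/-! Project SN (MP_9a0a6c_an), part (3'): finite filtered spaces and the data of the tilt. -/

set_option linter.unusedSectionVars false

namespace Pool.Agent.Helper56.SS

open Finset

/-- A nested family of partitions of a set, given by labels. -/
structure Fil (Ω : Type) where
  lab : ℕ → Ω → ℕ
  ref : ∀ j w w', lab (j + 1) w = lab (j + 1) w' → lab j w = lab j w'

variable {Ω : Type} [Fintype Ω]

/-- Uniform mean. -/
noncomputable def E (g : Ω → ℝ) : ℝ := (∑ w, g w) / (Fintype.card Ω : ℝ)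

/-- Block of `w` at time `j`. -/
def Fil.blk (F : Fil Ω) (j : ℕ) (w : Ω) : Finset Ω :=
  univ.filter (fun w' => F.lab j w' = F.lab j w)

/-- Block average at time `j` (conditional expectation). -/
noncomputable def Fil.C (F : Fil Ω) (j : ℕ) (g : Ω → ℝ) (w : Ω) : ℝ :=
  (∑ w' ∈ F.blk j w, g w') / ((F.blk j w).card : ℝ)

/-- `g` is constant on the blocks of time `j`. -/
def Fil.Meas (F : Fil Ω) (j : ℕ) (g : Ω → ℝ) : Prop :=
  ∀ w w', F.lab j w = F.lab j w' → g w = g w'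

/-! ### basic facts -/

theorem E_add (g h : Ω → ℝ) : E (fun w => g w + h w) = E g + E h := by
  unfold E; rw [sum_add_distrib, add_div]

theorem E_sub (g h : Ω → ℝ) : E (fun w => g w - h w) = E g - E h := by
  unfold E; rw [sum_sub_distrib, sub_div]

theorem E_neg (g : Ω → ℝ) : E (fun w => - g w) = - E g := by
  unfold E; rw [sum_neg_distrib, neg_div]

theorem E_mul_left (c : ℝ) (g : Ω → ℝ) : E (fun w => c * g w) = c * E g := by
  unfold E; rw [← mul_sum, mul_div_assoc]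

theorem E_mul_right (c : ℝ) (g : Ω → ℝ) : E (fun w => g w * c) = E g * c := by
  unfold E; rw [← sum_mul]; ring

theorem E_sum {ι : Type} (s : Finset ι) (g : ι → Ω → ℝ) :
    E (fun w => ∑ i ∈ s, g i w) = ∑ i ∈ s, E (g i) := by
  unfold E; rw [sum_comm, sum_div]

theorem E_mono {g h : Ω → ℝ} (H : ∀ w, g w ≤ h w) : E g ≤ E h := by
  unfold E
  exact div_le_div_of_nonneg_right (sum_le_sum (fun w _ => H w)) (by positivity)

theorem E_nonneg {g : Ω → ℝ} (H : ∀ w, 0 ≤ g w) : 0 ≤ E g := by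
  unfold E; exact div_nonneg (sum_nonneg (fun w _ => H w)) (by positivity)

theorem E_zero : E (fun _ : Ω => (0 : ℝ)) = 0 := by simp [E]

theorem E_const [Nonempty Ω] (c : ℝ) : E (fun _ : Ω => c) = c := by
  unfold E
  have : (Fintype.card Ω : ℝ) ≠ 0 := by exact_mod_cast Fintype.card_ne_zero
  simp only [sum_const, card_univ, nsmul_eq_mul]
  field_simp

theorem E_abs_le (g : Ω → ℝ) : |E g| ≤ E (fun w => |g w|) := by
  unfold E
  rw [abs_div, abs_of_nonneg (by positivity : (0:ℝ) ≤ (Fintype.card Ω : ℝ))]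
  exact div_le_div_of_nonneg_right (abs_sum_le_sum_abs _ _) (by positivity)

namespace Fil

variable (F : Fil Ω)

theorem lab_mono {i j : ℕ} (hij : i ≤ j) {w w' : Ω} (h : F.lab j w = F.lab j w') :
    F.lab i w = F.lab i w' := by
  induction j, hij using Nat.le_induction with
  | base => exact h
  | succ n _ ih => exact ih (F.ref n w w' h)

theorem mem_blk {j : ℕ} {w w' : Ω} : w' ∈ F.blk j w ↔ F.lab j w' = F.lab j w := by
  simp [blk]

theorem self_mem_blk (j : ℕ) (w : Ω) : w ∈ F.blk j w := by simp [blk]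

theorem card_blk_pos (j : ℕ) (w : Ω) : (0 : ℝ) < ((F.blk j w).card : ℝ) := by
  exact_mod_cast card_pos.mpr ⟨w, F.self_mem_blk j w⟩

theorem blk_congr {j : ℕ} {w w' : Ω} (h : F.lab j w = F.lab j w') : F.blk j w = F.blk j w' := by
  ext x; simp [blk, h]

theorem Meas.mono {F : Fil Ω} {i j : ℕ} (hij : i ≤ j) {g : Ω → ℝ} (h : F.Meas i g) :
    F.Meas j g := fun w w' hw => h w w' (F.lab_mono hij hw)

theorem meas_const (j : ℕ) (c : ℝ) : F.Meas j (fun _ => c) := fun _ _ _ => rfl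

theorem Meas.add {F : Fil Ω} {j : ℕ} {g h : Ω → ℝ} (hg : F.Meas j g) (hh : F.Meas j h) :
    F.Meas j (fun w => g w + h w) := fun w w' hw => by
  show g w + h w = g w' + h w'; rw [hg w w' hw, hh w w' hw]

theorem Meas.mul {F : Fil Ω} {j : ℕ} {g h : Ω → ℝ} (hg : F.Meas j g) (hh : F.Meas j h) :
    F.Meas j (fun w => g w * h w) := fun w w' hw => by
  show g w * h w = g w' * h w'; rw [hg w w' hw, hh w w' hw]

theorem Meas.comp {F : Fil Ω} {j : ℕ} {g : Ω → ℝ} (hg : F.Meas j g) (φ : ℝ → ℝ) :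
    F.Meas j (fun w => φ (g w)) := fun w w' hw => by
  show φ (g w) = φ (g w'); rw [hg w w' hw]

theorem Meas.comp₂ {F : Fil Ω} {j : ℕ} {g h : Ω → ℝ} (hg : F.Meas j g) (hh : F.Meas j h)
    (φ : ℝ → ℝ → ℝ) : F.Meas j (fun w => φ (g w) (h w)) := fun w w' hw => by
  show φ (g w) (h w) = φ (g w') (h w'); rw [hg w w' hw, hh w w' hw]

theorem Meas.prod {F : Fil Ω} {j : ℕ} {ι : Type} (s : Finset ι) {g : ι → Ω → ℝ}
    (hg : ∀ i ∈ s, F.Meas j (g i)) : F.Meas j (fun w => ∏ i ∈ s, g i w) := fun w w' hw => by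
  show ∏ i ∈ s, g i w = ∏ i ∈ s, g i w'
  exact prod_congr rfl (fun i hi => hg i hi w w' hw)

theorem C_meas (j : ℕ) (g : Ω → ℝ) : F.Meas j (F.C j g) := fun w w' hw => by
  unfold C; rw [F.blk_congr hw]

theorem C_of_meas {j : ℕ} {g : Ω → ℝ} (h : F.Meas j g) (w : Ω) : F.C j g w = g w := by
  unfold C
  rw [sum_congr rfl (g := fun _ => g w) (fun x hx => h x w (F.mem_blk.mp hx))]
  rw [sum_const, nsmul_eq_mul]
  have := F.card_blk_pos j w
  field_simp

theorem C_add (j : ℕ) (g h : Ω → ℝ) (w : Ω) :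
    F.C j (fun w => g w + h w) w = F.C j g w + F.C j h w := by
  unfold C; rw [sum_add_distrib, add_div]

theorem C_sub (j : ℕ) (g h : Ω → ℝ) (w : Ω) :
    F.C j (fun w => g w - h w) w = F.C j g w - F.C j h w := by
  unfold C; rw [sum_sub_distrib, sub_div]

theorem C_mul_left (j : ℕ) (c : ℝ) (g : Ω → ℝ) (w : Ω) :
    F.C j (fun w => c * g w) w = c * F.C j g w := by
  unfold C; rw [← mul_sum, mul_div_assoc]

theorem C_const (j : ℕ) (c : ℝ) (w : Ω) : F.C j (fun _ => c) w = c :=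
  F.C_of_meas (F.meas_const j c) w

theorem C_mono {j : ℕ} {g h : Ω → ℝ} (H : ∀ w, g w ≤ h w) (w : Ω) : F.C j g w ≤ F.C j h w := by
  unfold C
  exact div_le_div_of_nonneg_right (sum_le_sum (fun w _ => H w)) (by positivity)

theorem C_nonneg {j : ℕ} {g : Ω → ℝ} (H : ∀ w, 0 ≤ g w) (w : Ω) : 0 ≤ F.C j g w := by
  unfold C; exact div_nonneg (sum_nonneg (fun w _ => H w)) (by positivity)

/-- on the block of `w` it suffices to have the inequality -/
theorem C_mono_blk {j : ℕ} {g h : Ω → ℝ} (w : Ω) (H : ∀ w', F.lab j w' = F.lab j w → g w' ≤ h w') :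
    F.C j g w ≤ F.C j h w := by
  unfold C
  exact div_le_div_of_nonneg_right (sum_le_sum (fun x hx => H x (F.mem_blk.mp hx))) (by positivity)

theorem C_mul_meas {j : ℕ} {g : Ω → ℝ} (hg : F.Meas j g) (h : Ω → ℝ) (w : Ω) :
    F.C j (fun w => g w * h w) w = g w * F.C j h w := by
  unfold C
  rw [sum_congr rfl (g := fun x => g w * h x)
    (fun x hx => by
      show g x * h x = g w * h x
      rw [hg x w (F.mem_blk.mp hx)]), ← mul_sum, mul_div_assoc]

theorem sum_C (j : ℕ) (g : Ω → ℝ) : ∑ w, F.C j g w = ∑ w, g w := by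
  have h1 : ∀ w, F.C j g w
      = ∑ w' : Ω, (if F.lab j w' = F.lab j w then g w' / ((F.blk j w').card : ℝ) else 0) := by
    intro w
    unfold C
    rw [sum_div, blk, sum_filter]
    apply sum_congr rfl
    intro w' _
    split_ifs with h
    · have : F.blk j w' = F.blk j w := F.blk_congr h
      rw [this]; rfl
    · rfl
  simp_rw [h1]
  rw [sum_comm]
  apply sum_congr rfl
  intro w' _
  rw [← sum_filter, sum_const, nsmul_eq_mul]
  have h2 : (univ.filter (fun w => F.lab j w' = F.lab j w)) = F.blk j w' := by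
    ext x; simp [blk, eq_comm]
  rw [h2]
  have := F.card_blk_pos j w'
  field_simp

theorem E_C (j : ℕ) (g : Ω → ℝ) : E (F.C j g) = E g := by
  unfold E; rw [F.sum_C j g]

/-- `E (g * C_j h) = E (g * h)` for `g` measurable at time `j`. -/
theorem E_mul_C {j : ℕ} {g : Ω → ℝ} (hg : F.Meas j g) (h : Ω → ℝ) :
    E (fun w => g w * F.C j h w) = E (fun w => g w * h w) := by
  rw [← F.E_C j (fun w => g w * h w)]
  congr 1
  funext w
  exact (F.C_mul_meas hg h w).symm

theorem tower {i j : ℕ} (hij : i ≤ j) (g : Ω → ℝ) (w : Ω) : F.C i (F.C j g) w = F.C i g w := by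
  -- test against the indicator of the block of `w` at time `i`
  have hm : F.Meas i (fun x => if F.lab i x = F.lab i w then (1 : ℝ) else 0) := by
    intro a b hab
    show (if F.lab i a = F.lab i w then (1 : ℝ) else 0) = if F.lab i b = F.lab i w then 1 else 0
    rw [hab]
  have key := F.E_mul_C (hm.mono hij) g
  have hE : ∀ u : Ω → ℝ, (∑ x, (if F.lab i x = F.lab i w then (1 : ℝ) else 0) * u x)
      = ∑ x ∈ F.blk i w, u x := by
    intro u
    rw [blk, sum_filter]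
    apply sum_congr rfl
    intro x _
    split_ifs <;> simp
  have hcard : (Fintype.card Ω : ℝ) ≠ 0 := by
    have : Nonempty Ω := ⟨w⟩
    exact_mod_cast Fintype.card_ne_zero
  unfold E at key
  rw [div_left_inj' hcard, hE, hE] at key
  show (∑ x ∈ F.blk i w, F.C j g x) / _ = (∑ x ∈ F.blk i w, g x) / _
  rw [key]

end Fil

/-! ### the data -/

/-- Data of the tilt: filtration `F`, bounded function `f`, level parts `D j`, truncation
indicators `th j`, set `G` of tilted levels. -/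
structure Dat (Ω : Type) where
  F : Fil Ω
  f : Ω → ℝ
  D : ℕ → Ω → ℝ
  th : ℕ → Ω → ℝ
  G : Finset ℕ
  lam : ℝ
  kap : ℝ
  eta : ℝ
  B0 : ℝ

/-- Hypotheses on the data. -/
structure Hyp (d : Dat Ω) : Prop where
  lam_ge : 1 ≤ d.lam
  kap_pos : 0 < d.kap
  lk : d.lam * d.kap ≤ 1 / 4
  eta_nonneg : 0 ≤ d.eta
  f_le : ∀ w, |d.f w| ≤ 1
  D_meas : ∀ j, d.F.Meas (j + 1) (d.D j)
  D_zero : ∀ j w, d.F.C j (d.D j) w = 0
  D_le : ∀ j w, |d.D j w| ≤ d.B0
  th01 : ∀ j w, d.th j w = 0 ∨ d.th j w = 1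
  th_meas : ∀ j, d.F.Meas j (d.th j)
  th_le : ∀ j w, d.th j w = 1 → |d.D j w| ≤ d.kap
  gain : ∀ j ∈ d.G, ∀ g : Ω → ℝ, d.F.Meas j g → (∀ w, 0 ≤ g w) →
    E (fun w => g w * d.D j w ^ 2) - d.eta * E g ≤ E (fun w => g w * d.f w * d.D j w)

namespace Dat

variable (d : Dat Ω)

/-- the tilt increment -/
noncomputable def x (j : ℕ) (w : Ω) : ℝ :=
  open Classical in if j ∈ d.G then d.lam * d.th j w * d.D j w else 0

/-- the tilt density up to time `n` -/
noncomputable def R (n : ℕ) (w : Ω) : ℝ := ∏ i ∈ range n, (1 + d.x i w)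

/-- conditional variance of the level part -/
noncomputable def sg (j : ℕ) (w : Ω) : ℝ := d.F.C j (fun v => d.D j v ^ 2) w

/-- big part of the tilt at threshold `t` -/
noncomputable def xb (t : ℝ) (j : ℕ) (w : Ω) : ℝ :=
  open Classical in if t ^ 2 < d.sg j w then d.x j w else 0

/-- small part of the tilt at threshold `t` -/
noncomputable def xs (t : ℝ) (j : ℕ) (w : Ω) : ℝ :=
  open Classical in if t ^ 2 < d.sg j w then 0 else d.x j w

noncomputable def Bb (t : ℝ) (a n : ℕ) (w : Ω) : ℝ := ∏ i ∈ Ico a n, (1 + d.xb t i w)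

noncomputable def Ss (t : ℝ) (a n : ℕ) (w : Ω) : ℝ := ∏ i ∈ Ico a n, (1 + d.xs t i w)

/-- number of tilted levels in `[a, n)` -/
def cnt (a n : ℕ) : ℕ := (d.G.filter (fun j => a ≤ j ∧ j < n)).card

/-- gain of level `j` -/
noncomputable def gn (j : ℕ) : ℝ := E (fun w => d.R j w * (d.th j w * d.D j w ^ 2))

/-- `E_P` of the conditional variance of level `l` seen from time `c` -/
noncomputable def Pv (l c : ℕ) : ℝ := E (fun w => d.R c w * d.F.C c (fun v => d.D l v ^ 2) w)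

end Dat

/-- Cuts, thresholds and the bounds for the increments of the conditional variances. -/
structure Cuts (d : Dat Ω) (K : ℕ) (c : ℕ → ℕ → ℕ) (t dd : ℕ → ℝ) (e : ℕ → ℕ → ℝ) (tau : ℝ)
    (M : ℕ → ℝ) : Prop where
  Kpos : 1 ≤ K
  c0 : ∀ l ∈ d.G, c 0 l = l
  cmono : ∀ l ∈ d.G, ∀ k < K, c (k + 1) l ≤ c k l
  cK : ∀ l ∈ d.G, c K l = 0
  t0 : t 0 = d.kap
  tpos : ∀ k < K, 0 < t k
  cnt_le : ∀ l ∈ d.G, ∀ k < K, (d.cnt (c (k + 1) l) (c k l) : ℝ) ≤ dd k
  e_nonneg : ∀ l j, 0 ≤ e l j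
  tau_nonneg : 0 ≤ tau
  del : ∀ l ∈ d.G, ∀ j ∈ d.G, j < c 1 l → ∀ w,
    |d.F.C (j + 1) (fun v => d.D l v ^ 2) w - d.F.C j (fun v => d.D l v ^ 2) w| ≤ e l j + tau
  M_nonneg : ∀ k, 0 ≤ M k
  Mb : ∀ k, 1 ≤ k → k < K → ∀ j ∈ d.G,
    (∑ l ∈ d.G.filter (fun l => c (k + 1) l ≤ j ∧ j < c k l), e l j) ≤ M k

end Pool.Agent.Helper56.SS
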