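import Pool.Agent.Helper56.SS.Base

/-! Project SN (MP_9a0a6c_an), part (3'): statements of the modules with written proofs.

Setting (Fil.lean, Base.lean): finite set `Ω`, uniform mean `E`, nested partitions with block
averages `C j`; `x j = lam * th j * D j` for `j ∈ G` and `0` otherwise, `R n = ∏_{i<n} (1 + x i)`,
`sg j = C j (D j ^ 2)`, threshold split `x = xb + xs`, `Bb t a n = ∏_{a ≤ i < n} (1 + xb t i)`,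
`Ss t a n = ∏_{a ≤ i < n} (1 + xs t i)`, `gn j = E (R_j th_j D_j^2)`, `Pv l c = E (R_c C_c(D_l^2))`.
All elementary facts (measurability, positivity, `E R = 1`, `R_split`, `C_x = 0`, ...) are proved
in Base.lean. Each module may use the other statements of this file as hypotheses where the
proof says so. -/

namespace Pool.Agent.Helper56.SS

open Finset

/-- **GAIN.** Proof. Let `N` be larger than all elements of `G`.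
`E(R_N f) - E(R_0 f) = ∑_{j<N} E(R_j x_j f)` (telescoping, `R_{j+1} = R_j + R_j x_j`), and for
`j ∈ G`: `E(R_j x_j f) = lam E((R_j th_j) f D_j) ≥ lam (E(R_j th_j D_j^2) - eta E(R_j th_j))` by
`Hyp.gain` with `g = R_j th_j`, and `E(R_j th_j) ≤ E(R_j) = 1`. For `j ∉ G` the term is `0`.
The left side is at most `E R_N + 1 = 2` because `|f| ≤ 1`. -/
def S_GAIN : Prop := ∀ (Ω : Type) [Fintype Ω] [Nonempty Ω] (d : Dat Ω), Hyp d →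
  d.lam * ∑ j ∈ d.G, d.gn j ≤ 2 + d.lam * d.eta * d.G.card

/-- **MOM.** Proof. Put `a_n = E(R_n^(1+δ) (3 - f))`. `a_0 ≤ 4`. Since `|x| ≤ 1/4` and
`0 < δ ≤ 1`, Bernoulli: `(1+x)^(1+δ) = (1+x)(1+x)^δ ≤ (1+x)(1+δx) = 1 + (1+δ)x + δx^2`
(`Real.rpow_one_add_le_one_add_mul_self` or similar). As `3 - f ≥ 0`,
`a_{n+1} - a_n ≤ E(R_n^(1+δ) ((1+δ) x_n + δ x_n^2) (3-f))`. Here `E(R_n^(1+δ) x_n) = 0`
(`E_mul_C`, `C_x`), so the first part is `-(1+δ) E(R_n^(1+δ) x_n f)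
≤ -(1+δ) lam (E(R_n^(1+δ) th_n D_n^2) - eta E(R_n^(1+δ) th_n))` (`Hyp.gain` with
`g = R_n^(1+δ) th_n`) and the second is `≤ 4 δ lam^2 E(R_n^(1+δ) th_n D_n^2)`. As
`4 δ lam ≤ 1`, `a_{n+1} - a_n ≤ (1+δ) lam eta E(R_n^(1+δ)) ≤ lam eta a_n` for `n ∈ G` (because
`3 - f ≥ 2`, so `E(R_n^(1+δ)) ≤ a_n / 2`), and `a_{n+1} = a_n` for `n ∉ G`. Hence
`a_n ≤ 4 (1 + lam eta)^{|G|} ≤ 4 exp(lam eta |G|) ≤ 4 exp(1/4)` and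
`E(R_n^(1+δ)) ≤ a_n / 2 ≤ 2 exp(1/4) ≤ 3`. -/
def S_MOM : Prop := ∀ (Ω : Type) [Fintype Ω] [Nonempty Ω] (d : Dat Ω), Hyp d →
  ∀ δ : ℝ, 0 < δ → δ ≤ 1 / 4 → 4 * δ * d.lam ≤ 1 → d.lam * d.eta * d.G.card ≤ 1 / 4 →
  ∀ n, E (fun w => d.R n w ^ (1 + δ)) ≤ 3

/-- **HOL.** (uses S_MOM as hypothesis) Proof. Hölder for finite sums
(`Real.inner_le_Lp_mul_Lq` or `Finset.inner_le...`) with exponents `p = 1+δ`, `q = (1+δ)/δ`: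
`E(R a) ≤ (E R^p)^{1/p} (E a^q)^{1/q}`, `a^q ≤ a` since `0 ≤ a ≤ 1`, and `3^{1/p} ≤ 3`. -/
def S_HOL : Prop := S_MOM → ∀ (Ω : Type) [Fintype Ω] [Nonempty Ω] (d : Dat Ω), Hyp d →
  ∀ δ : ℝ, 0 < δ → δ ≤ 1 / 4 → 4 * δ * d.lam ≤ 1 → d.lam * d.eta * d.G.card ≤ 1 / 4 →
  ∀ (n : ℕ) (a : Ω → ℝ), (∀ w, 0 ≤ a w) → (∀ w, a w ≤ 1) →
  E (fun w => d.R n w * a w) ≤ 3 * (E a) ^ (δ / (1 + δ))

/-- **NEG.** negative moment of the small part. Proof. Induction on `n ≥ a`. Step: with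
`g = R_a Bb_{a,n} Ss_{a,n}^(-s)` (measurable at time `n`, positive)
`E(R_a Bb_{n+1} Ss_{n+1}^(-s)) = E(g (1+xb_n) (1+xs_n)^(-s))`. At each `w` one of `xb_n, xs_n` is
`0`: on the set `{t^2 < sg_n}` (measurable at time `n`) the last factor is `1 + xb_n`, whose block
average is `1`; on the complement it is `(1+xs_n)^(-s) ≤ 1 - s xs_n + 5 s^2 xs_n^2`, whose block
average is `≤ 1 + 5 s^2 lam^2 t^2` if `n ∈ G` (`C_xs`, `C_xs_sq`) and `= 1` if `n ∉ G`. So in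
all cases `E(g (1+xb)(1+xs)^(-s)) ≤ E(g) (1 + 5 s^2 lam^2 t^2 [n ∈ G])` and
`1 + u ≤ exp u`. The scalar inequality: for `s ≥ 1`, `|s y| ≤ 1/4`:
`(1+y)^(-s) = exp(-s log(1+y)) ≤ exp(-s y + s y^2)` (as `log(1+y) ≥ y - y^2` for `|y| ≤ 1/2`), put
`u = -s y + s y^2`, `|u| ≤ 1`, `exp u ≤ 1 + u + u^2`, `s y^2 ≤ s^2 y^2`,
`u^2 ≤ 2 s^2 y^2`. -/
def S_NEG : Prop := ∀ (Ω : Type) [Fintype Ω] [Nonempty Ω] (d : Dat Ω), Hyp d →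
  ∀ (t s : ℝ), 0 ≤ t → 1 ≤ s → s * (d.lam * d.kap) ≤ 1 / 4 → ∀ a n : ℕ, a ≤ n →
  E (fun w => d.R a w * d.Bb t a n w * d.Ss t a n w ^ (-s)) ≤
    Real.exp (5 * s ^ 2 * (d.cnt a n * (d.lam ^ 2 * t ^ 2)))

/-- **NEAR.** (uses S_NEG) Proof. Markov: on `{Ss < 1 - ε}` we have `1 ≤ (1-ε)^s Ss^(-s)`, so
`E(R_a Bb 1{Ss < 1-ε}) ≤ (1-ε)^s E(R_a Bb Ss^(-s)) ≤ exp(-s ε + 5 s^2 QV) ≤ om` where
`(1-ε)^s ≤ exp(-s ε)`. Then, with `R_n = R_a Bb Ss` (`R_split`) and `0 ≤ φ ≤ Φ`,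
`E(R_n φ) ≥ E(R_a Bb Ss φ 1{Ss ≥ 1-ε}) ≥ (1-ε) E(R_a Bb φ 1{Ss ≥ 1-ε})
 ≥ (1-ε) (E(R_a Bb φ) - Φ om)`. -/
def S_NEAR : Prop := S_NEG → ∀ (Ω : Type) [Fintype Ω] [Nonempty Ω] (d : Dat Ω), Hyp d →
  ∀ (t s ε om : ℝ), 0 ≤ t → 1 ≤ s → s * (d.lam * d.kap) ≤ 1 / 4 → 0 < ε → ε < 1 → ∀ a n : ℕ,
  a ≤ n → Real.exp (-(s * ε) + 5 * s ^ 2 * (d.cnt a n * (d.lam ^ 2 * t ^ 2))) ≤ om →
  ∀ (φ : Ω → ℝ) (Φ : ℝ), (∀ w, 0 ≤ φ w) → (∀ w, φ w ≤ Φ) →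
  (1 - ε) * (E (fun w => d.R a w * d.Bb t a n w * φ w) - Φ * om) ≤ E (fun w => d.R n w * φ w)

/-- **TEL.** telescoping. Proof. Induction on `n` from `a` for the quantity
`T_n = E(R_a Bb_{a,n} V_n)`, `V_n = C_n g`. `T_a = E(R_a V_a)`. Step:
`T_{n+1} = E(R_a Bb_n (1 + xb_n) V_{n+1})`. As `R_a Bb_n` is measurable at time `n` and
`C_n V_{n+1} = V_n` (`tower`), `E(R_a Bb_n V_{n+1}) = T_n`. And
`E(R_a Bb_n xb_n V_{n+1}) = E(R_a Bb_n xb_n (V_{n+1} - V_n))` since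
`E(R_a Bb_n xb_n V_n) = 0` (`C_xb`). This is `≥ -u_n E(R_a Bb_n |xb_n|)` for `n ∈ G`, and `0` for
`n ∉ G`. -/
def S_TEL : Prop := ∀ (Ω : Type) [Fintype Ω] [Nonempty Ω] (d : Dat Ω), Hyp d →
  ∀ (t : ℝ) (a n : ℕ), a ≤ n → ∀ (g : Ω → ℝ) (u : ℕ → ℝ),
  (∀ j ∈ d.G, a ≤ j → j < n → ∀ w, |d.F.C (j + 1) g w - d.F.C j g w| ≤ u j) →
  E (fun w => d.R a w * d.F.C a g w)
    - ∑ j ∈ d.G.filter (fun j => a ≤ j ∧ j < n), u j * E (fun w => d.R a w * d.Bb t a j w *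
      |d.xb t j w|)
  ≤ E (fun w => d.R a w * d.Bb t a n w * d.F.C n g w)

/-- **BIG.** (uses S_NEG, S_NEAR) Proof. For `j ∈ G`: by `E_mul_C` the left side is
`E(R_a Bb_j C_j|xb_j|)` and `C_j|xb_j| = lam th_j 1{t^2 < sg_j} C_j|D_j|
≤ lam th_j 1{t^2 < sg_j} sqrt(sg_j) ≤ (lam/t) th_j sg_j 1{t^2 < sg_j} =: (lam/t) φ`
(Cauchy-Schwarz in the block: `(C|D|)^2 ≤ C(D^2)`; `sqrt(sg) > t`), `0 ≤ φ ≤ kap^2` (`th_sg_le`).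
By S_NEAR on `[a, j)` with `n := j`, `Φ = kap^2`:
`E(R_a Bb_j φ) ≤ (1-ε)^{-1} E(R_j φ) + kap^2 om ≤ 2 E(R_j th_j sg_j) + kap^2 om` (`ε ≤ 1/2`) and
`E(R_j th_j sg_j) = gn j` (`gn_eq`). -/
def S_BIG : Prop := S_NEG → S_NEAR → ∀ (Ω : Type) [Fintype Ω] [Nonempty Ω] (d : Dat Ω), Hyp d →
  ∀ (t s ε om : ℝ), 0 < t → 1 ≤ s → s * (d.lam * d.kap) ≤ 1 / 4 → 0 < ε → ε ≤ 1 / 2 →
  ∀ a j : ℕ, a ≤ j → j ∈ d.G →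
  Real.exp (-(s * ε) + 5 * s ^ 2 * (d.cnt a j * (d.lam ^ 2 * t ^ 2))) ≤ om →
  E (fun w => d.R a w * d.Bb t a j w * |d.xb t j w|)
    ≤ d.lam / t * (2 * d.gn j + d.kap ^ 2 * om)

/-- **STEP.** (uses S_NEG, S_NEAR, S_TEL, S_BIG) Proof. S_NEAR with `φ = C_n(D_l^2)`, `Φ = B0^2`
gives `Pv l n ≥ (1-ε)(E(R_a Bb_n C_n(D_l^2)) - B0^2 om)`; S_TEL with `g = D_l^2`,
`u j = e l j + tau` and S_BIG for each `j` (note `cnt a j ≤ cnt a n`, so the exponential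
condition for `j` follows from that for `n`). -/
def S_STEP : Prop := S_NEG → S_NEAR → S_TEL → S_BIG →
  ∀ (Ω : Type) [Fintype Ω] [Nonempty Ω] (d : Dat Ω), Hyp d →
  ∀ (t s ε om : ℝ), 0 < t → 1 ≤ s → s * (d.lam * d.kap) ≤ 1 / 4 → 0 < ε → ε ≤ 1 / 2 →
  ∀ (l a n : ℕ), a ≤ n → ∀ (dd : ℝ), (d.cnt a n : ℝ) ≤ dd →
  Real.exp (-(s * ε) + 5 * s ^ 2 * (dd * (d.lam ^ 2 * t ^ 2))) ≤ om →
  ∀ (u : ℕ → ℝ), (∀ j, 0 ≤ u j) →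
  (∀ j ∈ d.G, a ≤ j → j < n → ∀ w,
    |d.F.C (j + 1) (fun v => d.D l v ^ 2) w - d.F.C j (fun v => d.D l v ^ 2) w| ≤ u j) →
  (1 - ε) * (d.Pv l a
    - ∑ j ∈ d.G.filter (fun j => a ≤ j ∧ j < n), u j * (d.lam / t * (2 * d.gn j + d.kap ^ 2 * om))
    - d.B0 ^ 2 * om) ≤ d.Pv l n

/-- **STEP0.** (uses S_NEG, S_NEAR) the first segment, threshold `kap`: no big part.
Proof. `xb kap = 0` (`Hyp.xb_kap`), so `Bb kap a n = 1` and `E(R_a Bb C_n g) = E(R_a C_a g)`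
(`E_mul_C` twice, `tower`); S_NEAR with `t = kap`, `φ = C_n(D_l^2)`, `Φ = B0^2`. -/
def S_STEP0 : Prop := S_NEG → S_NEAR →
  ∀ (Ω : Type) [Fintype Ω] [Nonempty Ω] (d : Dat Ω), Hyp d →
  ∀ (s ε om : ℝ), 1 ≤ s → s * (d.lam * d.kap) ≤ 1 / 4 → 0 < ε → ε ≤ 1 / 2 →
  ∀ (l a n : ℕ), a ≤ n → ∀ (dd : ℝ), (d.cnt a n : ℝ) ≤ dd →
  Real.exp (-(s * ε) + 5 * s ^ 2 * (dd * (d.lam ^ 2 * d.kap ^ 2))) ≤ om →
  (1 - ε) * (d.Pv l a - d.B0 ^ 2 * om) ≤ d.Pv l n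

/-- **CHAIN.** (uses all the above) Proof. For `l ∈ G` put `P_k = Pv l (c k l)`. S_STEP0 gives
`P_0 ≥ (1-ε)(P_1 - B0^2 om)` (segment `[c 1 l, c 0 l)`, `c 0 l = l`, threshold `t 0 = kap`) and
S_STEP with `t = t k`, `u j = e l j + tau` (for `j < c 1 l`, `j ∈ G` the increment bound is
`Cuts.del`) gives for `1 ≤ k < K`: `P_k ≥ (1-ε)(P_{k+1} - err_k - B0^2 om)`. As all
`err ≥ 0` and `P ≥ 0` (if a bracket is negative the inequality `P_k ≥ P_{k+1}(1-ε) - err_k - B0^2 om`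
is still true) we get `P_0 ≥ (1-ε)^K P_K - ∑ err_k - K B0^2 om`, `(1-ε)^K ≥ 1 - Kε ≥ 1/2`, and
`P_K = Pv l 0 = E(D_l^2)` (`R 0 = 1`, `E_C`). -/
def S_CHAIN : Prop := S_STEP → S_STEP0 → S_NEG → S_NEAR → S_TEL → S_BIG →
  ∀ (Ω : Type) [Fintype Ω] [Nonempty Ω] (d : Dat Ω), Hyp d →
  ∀ (K : ℕ) (c : ℕ → ℕ → ℕ) (t dd : ℕ → ℝ) (e : ℕ → ℕ → ℝ) (tau : ℝ) (M : ℕ → ℝ),
  Cuts d K c t dd e tau M →
  ∀ (s ε om : ℝ), 1 ≤ s → s * (d.lam * d.kap) ≤ 1 / 4 → 0 < ε → K * ε ≤ 1 / 2 →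
  (∀ k < K, Real.exp (-(s * ε) + 5 * s ^ 2 * (dd k * (d.lam ^ 2 * t k ^ 2))) ≤ om) →
  ∀ l ∈ d.G, E (fun w => d.D l w ^ 2) / 2
    - ∑ k ∈ Ico 1 K, ∑ j ∈ d.G.filter (fun j => c (k + 1) l ≤ j ∧ j < c k l),
        (e l j + tau) * (d.lam / t k * (2 * d.gn j + d.kap ^ 2 * om))
    - K * (d.B0 ^ 2 * om) ≤ d.Pv l l

/-- **FIN.** the abstract theorem. (uses S_GAIN, S_MOM, S_HOL and the conclusion of S_CHAIN)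
Proof. Sum S_CHAIN over `l ∈ G`. Right side:
`Pv l l = E(R_l sg_l) = E(R_l D_l^2) = gn l + E(R_l (1-th_l) D_l^2)`, the last term is
`≤ B0^2 E(R_l (1-th_l)) ≤ 3 B0^2 z^{δ/(1+δ)}` (S_HOL, `E(1-th_l) ≤ z`), and
`lam ∑ gn ≤ 3` (S_GAIN and `lam eta |G| ≤ 1/4`). Errors: exchange the sums,
`∑_l ∑_{k} ∑_j (e l j + tau) y_j^k = ∑_k ∑_{j ∈ G} y_j^k ∑_{l : j ∈ seg_k(l)} (e l j + tau)
≤ ∑_k (M k + |G| tau) ∑_{j∈G} y_j^k`, where `y_j^k = (lam/t_k)(2 gn j + kap^2 om)` and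
`∑_j y_j^k ≤ (1/t_k)(6 + |G| lam kap^2 om)`. -/
def S_FIN : Prop := ∀ (Ω : Type) [Fintype Ω] [Nonempty Ω] (d : Dat Ω), Hyp d →
  ∀ (K : ℕ) (c : ℕ → ℕ → ℕ) (t dd : ℕ → ℝ) (e : ℕ → ℕ → ℝ) (tau : ℝ) (M : ℕ → ℝ),
  Cuts d K c t dd e tau M →
  ∀ (s ε om δ z : ℝ), 1 ≤ s → s * (d.lam * d.kap) ≤ 1 / 4 → 0 < ε → K * ε ≤ 1 / 2 →
  (∀ k < K, Real.exp (-(s * ε) + 5 * s ^ 2 * (dd k * (d.lam ^ 2 * t k ^ 2))) ≤ om) →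
  0 < δ → δ ≤ 1 / 4 → 4 * δ * d.lam ≤ 1 → d.lam * d.eta * d.G.card ≤ 1 / 4 →
  (∀ l ∈ d.G, E (fun w => 1 - d.th l w) ≤ z) →
  (∑ l ∈ d.G, E (fun w => d.D l w ^ 2)) / 2 ≤
    3 / d.lam + d.G.card * (3 * d.B0 ^ 2 * z ^ (δ / (1 + δ))) + d.G.card * (K * (d.B0 ^ 2 * om))
    + ∑ k ∈ Ico 1 K, (M k + d.G.card * tau) * (1 / t k * (6 + d.G.card * (d.lam * d.kap ^ 2 * om)))

end Pool.Agent.Helper56.SS
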