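import Pool.Agent.Helper56.SS.St

/-! Module GAIN of project SN (MP_9a0a6c_an): the gain inequality. -/

set_option linter.unusedSectionVars false

namespace Pool.Agent.Helper56.SS

open Finset

private theorem step_GAIN {Ω : Type} [Fintype Ω] [Nonempty Ω] (d : Dat Ω) (h : Hyp d) (n : ℕ) :
    E (fun w => d.R (n + 1) w * d.f w) - E (fun w => d.R n w * d.f w)
      = E (fun w => d.R n w * d.x n w * d.f w) := by
  rw [← E_sub]
  congr 1
  funext w
  rw [h.R_succ]
  ring

private theorem mem_GAIN {Ω : Type} [Fintype Ω] [Nonempty Ω] (d : Dat Ω) (h : Hyp d) (j : ℕ)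
    (hj : j ∈ d.G) :
    d.lam * (d.gn j - d.eta) ≤ E (fun w => d.R j w * d.x j w * d.f w) := by
  have hl := h.lam_pos
  have e1 : (fun w => d.R j w * d.x j w * d.f w)
      = fun w => d.lam * ((d.R j w * d.th j w) * d.f w * d.D j w) := by
    funext w
    unfold Dat.x
    rw [if_pos hj]
    ring
  rw [e1, E_mul_left]
  apply mul_le_mul_of_nonneg_left _ hl.le
  have h1 := h.gain j hj (fun w => d.R j w * d.th j w) ((h.R_meas j).mul (h.th_meas j))
    (fun w => mul_nonneg (h.R_pos j w).le (h.th_nonneg j w))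
  have h2 : E (fun w => d.R j w * d.th j w) ≤ 1 := by
    rw [← h.E_R j]
    apply E_mono
    intro w
    calc d.R j w * d.th j w ≤ d.R j w * 1 :=
          mul_le_mul_of_nonneg_left (h.th_le_one j w) (h.R_pos j w).le
      _ = d.R j w := mul_one _
  have h3 : E (fun w => d.R j w * d.th j w * d.D j w ^ 2) = d.gn j := by
    unfold Dat.gn
    congr 1
    funext w
    ring
  have h4 : d.eta * E (fun w => d.R j w * d.th j w) ≤ d.eta * 1 :=
    mul_le_mul_of_nonneg_left h2 h.eta_nonneg
  have h5 : E (fun w => d.R j w * d.th j w * d.D j w ^ 2)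
      - d.eta * E (fun w => d.R j w * d.th j w)
      ≤ E (fun w => d.R j w * d.th j w * d.f w * d.D j w) := h1
  rw [h3] at h5
  linarith

private theorem notMem_GAIN {Ω : Type} [Fintype Ω] [Nonempty Ω] (d : Dat Ω) (j : ℕ)
    (hj : j ∉ d.G) :
    E (fun w => d.R j w * d.x j w * d.f w) = 0 := by
  have e1 : (fun w => d.R j w * d.x j w * d.f w) = fun _ => (0 : ℝ) := by
    funext w
    unfold Dat.x
    rw [if_neg hj]
    ring
  rw [e1, E_zero]

theorem m_gain : S_GAIN := by
  intro Ω _ _ d h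
  obtain ⟨N, hN⟩ : ∃ N, d.G ⊆ range N := by
    refine ⟨d.G.sup id + 1, ?_⟩
    intro j hj
    rw [mem_range]
    have : j ≤ d.G.sup id := le_sup (f := id) hj
    omega
  have h1 : E (fun w => d.R N w * d.f w) - E (fun w => d.R 0 w * d.f w)
      = ∑ j ∈ range N, E (fun w => d.R j w * d.x j w * d.f w) := by
    rw [← sum_range_sub (fun n => E (fun w => d.R n w * d.f w)) N]
    exact sum_congr rfl (fun j _ => step_GAIN d h j)
  have h2 : ∑ j ∈ range N, E (fun w => d.R j w * d.x j w * d.f w)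
      = ∑ j ∈ d.G, E (fun w => d.R j w * d.x j w * d.f w) := by
    symm
    apply sum_subset hN
    intro j _ hj
    exact notMem_GAIN d j hj
  have h3 : ∑ j ∈ d.G, d.lam * (d.gn j - d.eta)
      ≤ ∑ j ∈ d.G, E (fun w => d.R j w * d.x j w * d.f w) :=
    sum_le_sum (fun j hj => mem_GAIN d h j hj)
  have h4 : ∀ n, |E (fun w => d.R n w * d.f w)| ≤ 1 := by
    intro n
    refine (E_abs_le _).trans ?_
    rw [← h.E_R n]
    apply E_mono
    intro w
    rw [abs_mul, abs_of_pos (h.R_pos n w)]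
    calc d.R n w * |d.f w| ≤ d.R n w * 1 :=
          mul_le_mul_of_nonneg_left (h.f_le w) (h.R_pos n w).le
      _ = d.R n w := mul_one _
  have h5 := abs_le.mp (h4 N)
  have h6 := abs_le.mp (h4 0)
  have h7 : ∑ j ∈ d.G, d.lam * (d.gn j - d.eta)
      = d.lam * ∑ j ∈ d.G, d.gn j - d.lam * d.eta * d.G.card := by
    rw [← mul_sum, sum_sub_distrib, sum_const, nsmul_eq_mul]
    ring
  linarith [h5.1, h5.2, h6.1, h6.2]

end Pool.Agent.Helper56.SS
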